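import Pool.Agent.Helper55.RD.Good

/-!
Iteration of the construction.
-/

namespace Pool.Agent.Helper55.RD

open Finset Function

theorem base_vis : ∀ r : Fin 4, ∃ b b' : Fin 4, b < b' ∧ b + r < b' + r ∧
    ∀ c : Fin 4, b ≤ c → c ≤ b' → b + r ≤ c + r → c + r ≤ b' + r → c = b ∨ c = b' := by
  decide

theorem base_indep (r : Fin 4) (S : Finset (Fin 4))
    (hS : ∀ b ∈ S, ∀ b' ∈ S, ¬ Vis (fun b => id b + r) id b b') : S.card ≤ 3 := by
  by_contra hcon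
  rw [not_le] at hcon
  have h1 : S = univ := by
    apply Finset.eq_univ_of_card
    have := Finset.card_le_univ S
    rw [Fintype.card_fin] at this ⊢
    omega
  obtain ⟨b, b', hb⟩ := base_vis r
  exact hS b (h1 ▸ Finset.mem_univ b) b' (h1 ▸ Finset.mem_univ b') hb

theorem good_base : Good (2 ^ (2 ^ 13)) (2 ^ (2 ^ 13) / 2 ^ (2 ^ 3)) := by
  have h := good_step_family (J := 64) (u := 4) (n := 2 ^ 126) id injective_id 3 base_indep
    (β := 7 / 8) (by norm_num) (by norm_num) (2 ^ 30) (by positivity) (1 / 2 ^ 16) (by positivity)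
    (by norm_num) (by norm_num) (by norm_num) (by norm_num)
  have e1 : (4 * 2 ^ 126) ^ 64 = 2 ^ (2 ^ 13) := by
    rw [show (4 : ℕ) = 2 ^ 2 by norm_num, ← pow_add, ← pow_mul]
    congr 1
  rw [e1] at h
  apply h.mono
  have e2 : (((4 : ℕ) : ℝ) * ((2 ^ 126 : ℕ) : ℝ)) ^ 64 = 2 ^ (2 ^ 13) := by
    rw [← Nat.cast_mul, ← Nat.cast_pow, e1, Nat.cast_pow, Nat.cast_ofNat]
  rw [e2, show (2 : ℝ) ^ (2 ^ 13) / 2 ^ (2 ^ 3) = (2 ^ (2 ^ 3))⁻¹ * 2 ^ (2 ^ 13) from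
    div_eq_inv_mul _ _]
  apply mul_le_mul_of_nonneg_right _ (by positivity)
  norm_num

theorem good_next {P t : ℕ} (hP : 3 ≤ P) (ht1 : 2 ≤ t) (ht : t + 3 ≤ P)
    (h : Good (2 ^ (2 ^ P)) (2 ^ (2 ^ P) / 2 ^ (2 ^ (P - t)))) :
    Good (2 ^ (2 ^ (P + t + 3))) (2 ^ (2 ^ (P + t + 3)) / 2 ^ (2 ^ (P - 2))) := by
  -- parameters
  obtain ⟨Q, hQ⟩ : ∃ Q, P = t + Q + 1 := ⟨P - t - 1, by omega⟩
  have hQ2 : 2 ≤ Q := by omega
  have e0 : P - t = Q + 1 := by omega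
  rw [e0] at h
  have e3 : P - 2 = t + Q - 1 := by omega
  obtain ⟨s, hs⟩ : ∃ s, t + Q - 1 = s := ⟨_, rfl⟩
  rw [e3, hs]
  have hPs : P = s + 2 := by omega
  have hp1 : 2 ^ P = 4 * 2 ^ s := by rw [hPs, pow_add]; ring
  have hst : t + 1 ≤ s := by omega
  have h2t : 2 ^ t + 1 ≤ 2 ^ s := by
    calc 2 ^ t + 1 ≤ 2 ^ t + 2 ^ t := by have := Nat.one_le_two_pow (n := t); omega
      _ = 2 ^ (t + 1) := by ring
      _ ≤ 2 ^ s := Nat.pow_le_pow_right (by norm_num) hst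
  have hlin : t + 1 < 2 ^ s := lt_of_le_of_lt hst Nat.lt_two_pow_self
  have hstep := good_step (J := 2 ^ t) (u := 2 ^ (2 ^ P)) (n := 2 ^ (7 * 2 ^ P)) (by positivity)
    (by positivity) h (β := 2 / 2 ^ (2 ^ Q)) (by positivity) ?_ (2 ^ (2 * t + 2 + 2 * 2 ^ s))
    (by positivity) (1 / 2 ^ (t + 2 + 2 ^ s)) (by positivity) ?_ ?_ ?_ ?_
  · have e1 : (2 ^ (2 ^ P) * 2 ^ (7 * 2 ^ P)) ^ (2 ^ t) = 2 ^ (2 ^ (P + t + 3)) := by
      rw [← pow_add, ← pow_mul]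
      congr 1
      rw [pow_add, pow_add]
      ring
    rw [e1] at hstep
    apply hstep.mono
    have e2 : (((2 ^ (2 ^ P) : ℕ) : ℝ) * ((2 ^ (7 * 2 ^ P) : ℕ) : ℝ)) ^ (2 ^ t) =
        2 ^ (2 ^ (P + t + 3)) := by
      have := congrArg (fun x : ℕ => (x : ℝ)) e1
      push_cast at this ⊢
      exact this
    rw [e2, show (2 : ℝ) ^ (2 ^ (P + t + 3)) / 2 ^ (2 ^ s) =
      (2 ^ (2 ^ s))⁻¹ * 2 ^ (2 ^ (P + t + 3)) from div_eq_inv_mul _ _]
    apply mul_le_mul_of_nonneg_right _ (by positivity)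
    -- the ratio
    have f1 : (2 / 2 ^ (2 ^ Q) : ℝ) ^ (2 ^ t) = 2 ^ (2 ^ t) / 2 ^ (2 * 2 ^ s) := by
      rw [div_pow, ← pow_mul, ← pow_add]
      congr 2
      have : Q + t = s + 1 := by omega
      rw [this]; ring
    have f2 : (2 : ℝ) ^ (2 ^ t) / 2 ^ (2 * 2 ^ s) ≤ 1 / (2 * 2 ^ (2 ^ s)) := by
      rw [div_le_div_iff₀ (by positivity) (by positivity), one_mul, ← pow_succ', ← pow_add]
      apply pow_le_pow_right₀ (by norm_num)
      omega
    have f3 : 2 * ((2 ^ t : ℕ) : ℝ) * (1 / 2 ^ (t + 2 + 2 ^ s)) = 1 / (2 * 2 ^ (2 ^ s)) := by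
      push_cast
      rw [pow_add, pow_add]
      field_simp
    rw [f1, f3]
    calc (2 : ℝ) ^ (2 ^ t) / 2 ^ (2 * 2 ^ s) + 1 / (2 * 2 ^ (2 ^ s))
        ≤ 1 / (2 * 2 ^ (2 ^ s)) + 1 / (2 * 2 ^ (2 ^ s)) := by gcongr
      _ = (2 ^ (2 ^ s))⁻¹ := by field_simp; norm_num
  · have : (2 / 2 ^ (2 ^ Q) : ℝ) ^ 2 = 4 / 2 ^ (2 ^ (Q + 1)) := by
      rw [div_pow, ← pow_mul]
      congr 1
      norm_num
    rw [this]
    push_cast
    rw [mul_div_assoc', div_mul_eq_mul_div]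
    gcongr
    norm_num
  · rw [div_le_one (by positivity)]
    exact one_le_pow₀ (by norm_num)
  · push_cast
    rw [div_pow, one_pow, ← pow_mul, mul_one_div, le_div_iff₀ (by positivity), one_mul,
      show (4 : ℝ) = 2 ^ 2 by norm_num, ← pow_add]
    apply pow_le_pow_right₀ (by norm_num)
    omega
  · calc 3 ≤ 2 ^ 2 := by norm_num
      _ ≤ 2 ^ t := Nat.pow_le_pow_right (by norm_num) ht1
  · push_cast
    rw [div_pow, one_pow, ← pow_mul, div_mul_eq_mul_div, one_mul, le_div_iff₀ (by positivity),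
      show (8 : ℝ) = 2 ^ 3 by norm_num, ← pow_mul]
    simp only [← pow_add]
    apply pow_le_pow_right₀ (by norm_num)
    rw [hp1]
    omega

/-- the exponents -/
def tt (i : ℕ) : ℕ := 10 + 5 * i

/-- the exponents -/
def PP : ℕ → ℕ
  | 0 => 13
  | i + 1 => PP i + tt i + 3

theorem PP_ge (i : ℕ) : tt i + 3 ≤ PP i := by
  induction i with
  | zero => simp [tt, PP]
  | succ i ih => simp only [tt, PP] at ih ⊢; omega

theorem PP_ge_sq (i : ℕ) : 2 * (i + 1) ^ 2 ≤ PP i := by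
  induction i with
  | zero => simp [PP]
  | succ i ih =>
    simp only [tt, PP] at ih ⊢
    nlinarith

theorem PP_ge_13 (i : ℕ) : 13 ≤ PP i := by
  have := PP_ge i
  simp only [tt] at this
  omega

/-- the iterated construction -/
theorem good_iter (i : ℕ) : Good (2 ^ (2 ^ PP i)) (2 ^ (2 ^ PP i) / 2 ^ (2 ^ (PP i - tt i))) := by
  induction i with
  | zero =>
    have : PP 0 - tt 0 = 3 := rfl
    rw [this]
    exact good_base
  | succ i ih =>
    have h1 := PP_ge i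
    have h2 : PP (i + 1) = PP i + tt i + 3 := rfl
    have h3 : PP (i + 1) - tt (i + 1) = PP i - 2 := by
      rw [h2]; simp only [tt] at h1 ⊢; omega
    rw [h3, h2]
    exact good_next (by omega) (by simp only [tt]; omega) h1 ih

end Pool.Agent.Helper55.RD
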