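import Pool.Agent.Helper55.RD.Hybrid

/-!
Choice of the shifts of all digits.
-/

namespace Pool.Agent.Helper55.RD

open Finset Function

set_option linter.unusedSectionVars false

section All

variable {J : ℕ} {U E : Type*} [Fintype U] [Fintype E] [DecidableEq U] [DecidableEq E]

theorem numeric [Nonempty U] [Nonempty E] (d : U × E) (m : ℕ) (hm : 0 < m) (η : ℝ) (hη : 0 < η)
    (hJ : 3 ≤ J)
    (hn : 8 * m * (Fintype.card U : ℝ) ^ 2 * J ≤ η ^ 2 * Fintype.card E) (K : Fin J) :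
    ((Fintype.card E : ℝ) * (2 : ℝ) ^ (Fintype.card U ^ 2 *
      Fintype.card {p : Fin J × (Fin J → U × E) // p.1 ≠ K ∧ p.2 p.1 = d ∧ (p.2 K).2 = d.2})) ^ m *
      Real.exp (-(η ^ 2 * Fintype.card {c : Fin J → U × E // c K = d} / 4)) < 1 := by
  set I := Fintype.card {p : Fin J × (Fin J → U × E) // p.1 ≠ K ∧ p.2 p.1 = d ∧ (p.2 K).2 = d.2}
    with hI
  set C := Fintype.card {c : Fin J → U × E // c K = d} with hC
  set u := Fintype.card U with hu
  set n := Fintype.card E with hn'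
  have hu0 : 0 < u := Fintype.card_pos
  have hn0 : 0 < n := Fintype.card_pos
  have h1 : C * (u * n) = (u * n) ^ J := by
    have := card_ctx K d
    rw [Fintype.card_fun, Fintype.card_prod, Fintype.card_fin] at this
    exact this
  have h2 : I * (u * n * n) ≤ J * (u * n) ^ J := by
    have := card_idx K d
    rw [Fintype.card_fun, Fintype.card_prod, Fintype.card_fin] at this
    exact this
  have hun : 0 < u * n := Nat.mul_pos hu0 hn0
  have h3 : I * n ≤ J * C := by
    have : (I * n) * (u * n) ≤ (J * C) * (u * n) := by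
      calc (I * n) * (u * n) = I * (u * n * n) := by ring
        _ ≤ J * (u * n) ^ J := h2
        _ = (J * C) * (u * n) := by rw [← h1]; ring
    exact Nat.le_of_mul_le_mul_right this hun
  have h4 : C = (u * n) ^ (J - 1) := by
    have e : J = (J - 1) + 1 := by omega
    have h5 : C * (u * n) = (u * n) ^ (J - 1) * (u * n) := by
      rw [h1]; conv_lhs => rw [e, pow_succ]
    exact Nat.eq_of_mul_eq_mul_right hun h5
  have h5 : n * n ≤ C := by
    rw [h4]
    calc n * n ≤ (u * n) * (u * n) := by nlinarith [Nat.mul_le_mul hu0 (le_refl n)]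
      _ = (u * n) ^ 2 := by ring
      _ ≤ (u * n) ^ (J - 1) := Nat.pow_le_pow_right hun (by omega)
  have hnR : (0 : ℝ) < n := by exact_mod_cast hn0
  have huR : (1 : ℝ) ≤ u := by exact_mod_cast hu0
  have hmR : (0 : ℝ) < m := by exact_mod_cast hm
  have hJR : (3 : ℝ) ≤ J := by exact_mod_cast hJ
  have h3R : (I : ℝ) * n ≤ J * C := by exact_mod_cast h3
  have h5R : (n : ℝ) * n ≤ C := by exact_mod_cast h5
  have hCR : (0 : ℝ) < C := lt_of_lt_of_le (by positivity) h5R
  -- logarithmic form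
  have hlogn : Real.log n < n := by
    have := Real.log_le_sub_one_of_pos hnR
    linarith
  have hlog2 : Real.log 2 < 1 := by
    have := Real.log_two_lt_d9; linarith
  have hlog20 : 0 < Real.log 2 := Real.log_pos one_lt_two
  have key : (m : ℝ) * (Real.log n + (u : ℝ) ^ 2 * I * Real.log 2) < η ^ 2 * C / 4 := by
    have a1 : (m : ℝ) * (u : ℝ) ^ 2 * I * n ≤ η ^ 2 * C / 8 * n := by
      calc (m : ℝ) * (u : ℝ) ^ 2 * I * n = m * (u : ℝ) ^ 2 * (I * n) := by ring
        _ ≤ m * (u : ℝ) ^ 2 * (J * C) := by gcongr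
        _ = (8 * m * (u : ℝ) ^ 2 * J) * C / 8 := by ring
        _ ≤ (η ^ 2 * n) * C / 8 := by gcongr
        _ = _ := by ring
    have a2 : (m : ℝ) * (u : ℝ) ^ 2 * I ≤ η ^ 2 * C / 8 := le_of_mul_le_mul_right a1 hnR
    have a3 : (m : ℝ) * n ≤ η ^ 2 * C / 8 := by
      have a4 : (8 * m * n : ℝ) ≤ η ^ 2 * n * n := by
        have : (8 * m * n : ℝ) ≤ 8 * m * (u : ℝ) ^ 2 * J * n := by
          have b1 : (1 : ℝ) ≤ (u : ℝ) ^ 2 := one_le_pow₀ huR
          have b2 : (1 : ℝ) ≤ (u : ℝ) ^ 2 * J := by nlinarith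
          have b3 : 0 ≤ (8 * m * n : ℝ) := by positivity
          nlinarith
        refine this.trans ?_
        gcongr
      have a5 : η ^ 2 * n * n ≤ η ^ 2 * C := by
        rw [mul_assoc]; gcongr
      linarith
    have a6 : (m : ℝ) * Real.log n < m * n := by gcongr
    have a7 : (m : ℝ) * ((u : ℝ) ^ 2 * I * Real.log 2) ≤ m * (u : ℝ) ^ 2 * I := by
      have : 0 ≤ (m : ℝ) * (u : ℝ) ^ 2 * I := by positivity
      nlinarith
    rw [mul_add]
    linarith
  have h6 : ((n : ℝ) * (2 : ℝ) ^ (u ^ 2 * I)) ^ m =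
      Real.exp (m * (Real.log n + (u : ℝ) ^ 2 * I * Real.log 2)) := by
    rw [Real.exp_nat_mul, Real.exp_add, Real.exp_log hnR]
    congr 2
    rw [← Real.exp_log (show (0 : ℝ) < 2 ^ (u ^ 2 * I) by positivity), Real.log_pow]
    push_cast
    rfl
  rw [h6, ← Real.exp_add]
  rw [Real.exp_lt_one_iff]
  linarith

/-- Choice of all shifts. -/
theorem choose_all [Nonempty U] [Nonempty E] {gr : U → U → U} {Ind : U → Finset U → Prop} {κ : ℕ}
    (hgr : ∀ b, Injective (fun r => gr r b)) (hgr2 : ∀ r, Injective (gr r))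
    (hI : ∀ r, Ind r ∅) (hκ : ∀ r S, Ind r S → S.card ≤ κ) (d : U × E)
    {β : ℝ} (hβ : 0 ≤ β) (hκβ : (κ : ℝ) ≤ β ^ 2 * Fintype.card U)
    (m : ℕ) (hm : 0 < m) (η : ℝ) (hη : 0 < η) (hη1 : η ≤ 1) (hmη : 1 ≤ 4 * m * η ^ 2)
    (hJ : 3 ≤ J)
    (hn : 8 * m * (Fintype.card U : ℝ) ^ 2 * J ≤ η ^ 2 * Fintype.card E) :
    ∃ r : Fin J → (Fin J → U × E) → U, ∀ B, Adm gr Ind κ 0 r B →
      ∑ z, fw d (wt 0 B) (List.finRange J) (fun _ => 1) z ≤
        (β ^ J + 2 * J * η) * Fintype.card (Fin J → U × E) := by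
  have H : ∀ t : ℕ, t ≤ J → ∃ r : Fin J → (Fin J → U × E) → U, ∀ B, Adm gr Ind κ (J - t) r B →
      ∑ z, fw d (wt (J - t) B) (List.finRange J) (fun _ => 1) z ≤
        (β ^ J + 2 * t * η) * Fintype.card (Fin J → U × E) := by
    intro t
    induction t with
    | zero =>
      intro _
      refine ⟨fun _ _ => d.1, fun B hB => ?_⟩
      have := adm_top (r := fun _ _ => d.1) (B := B) hB d hβ hκβ
      simpa using this
    | succ t ih =>
      intro ht
      obtain ⟨r, hr⟩ := ih (by omega)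
      have hK : J - (t + 1) < J := by omega
      have e : J - t = ((⟨J - (t + 1), hK⟩ : Fin J) : ℕ) + 1 := by simp only; omega
      rw [e] at hr
      obtain ⟨r', hr'⟩ := step_digit hgr hgr2 hI hκ d m hm η hη hη1 hmη ⟨J - (t + 1), hK⟩
        (numeric d m hm η hη hJ hn _) r _ hr
      refine ⟨r', fun B hB => ?_⟩
      have := hr' B hB
      simp only at this
      push_cast
      convert this using 2
      ring
  obtain ⟨r, hr⟩ := H J le_rfl
  rw [Nat.sub_self] at hr
  exact ⟨r, hr⟩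

end All

end Pool.Agent.Helper55.RD
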