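import Pool.Agent.Helper55.RD.Perm

/-!
One step of the construction for permutations.
-/

namespace Pool.Agent.Helper55.RD

open Finset Function

set_option linter.unusedSectionVars false

section Bound

variable {J u n : ℕ} {gr : Fin u → Fin u → Fin u} {d : Fin u × Fin n}
  {r : Fin J → (Fin J → Fin u × Fin n) → Fin u}

/-- a vector all of whose letters are allowed contributes at least one -/
theorem one_le_fw {B : Fin J → (Fin J → Fin u × Fin n) → Finset (Fin u × Fin u)}
    (y : Fin J → Fin u × Fin n)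
    (hy : ∀ k : Fin J, (gr (r k (update (zs gr d r y k) k d)) (y k).1, (y k).1) ∈
      B k (update (zs gr d r y k) k d)) (s t : ℕ) (hst : t + s = J) :
    1 ≤ fw d (wt 0 B) ((List.finRange J).drop t) (fun _ => 1) (zs gr d r y t) := by
  have hnn : ∀ (k : Fin J) c a b, 0 ≤ wt 0 B k c a b := by
    intro k c a b
    unfold wt
    rw [if_neg (Nat.not_lt_zero _)]
    split_ifs <;> norm_num
  have hfn : ∀ (l : List (Fin J)) (z : Fin J → Fin u × Fin n),
      0 ≤ fw d (wt 0 B) l (fun _ => 1) z := by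
    intro l
    induction l with
    | nil => intro z; exact zero_le_one
    | cons k l ih =>
      intro z
      rw [fw_cons]
      exact Finset.sum_nonneg (fun a _ => mul_nonneg (hnn _ _ _ _) (ih _))
  induction s generalizing t with
  | zero =>
    rw [List.drop_eq_nil_of_le (by rw [List.length_finRange]; omega)]
    exact le_refl _
  | succ s ih =>
    have ht : t < J := by omega
    have h1 : (List.finRange J).drop t = ⟨t, ht⟩ :: (List.finRange J).drop (t + 1) := by
      rw [List.drop_eq_getElem_cons (by rw [List.length_finRange]; exact ht)]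
      congr 1
      simp
    rw [h1, fw_cons]
    set K : Fin J := ⟨t, ht⟩ with hK
    have h2 : zs gr d r y (t + 1) = stp gr d r K (zs gr d r y t) := zs_succ y K
    have h3 := ih (t + 1) (by omega)
    rw [h2] at h3
    unfold stp at h3
    have h4 : zs gr d r y t K = y K := zs_ge y t K (by simp [hK])
    rw [h4] at h3
    set a := gr (r K (update (zs gr d r y t) K d)) (y K).1 with ha
    have h5 : wt 0 B K (update (zs gr d r y t) K d) a (y K).1 = 1 := by
      unfold wt
      rw [if_neg (Nat.not_lt_zero _), if_pos (hy K)]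
    calc (1 : ℝ) ≤ wt 0 B K (update (zs gr d r y t) K d) a (y K).1 *
        fw d (wt 0 B) ((List.finRange J).drop (t + 1)) (fun _ => 1) (rep (zs gr d r y t) K a) := by
          rw [h5, one_mul]; exact h3
      _ ≤ Lop d (wt 0 B) K (fw d (wt 0 B) ((List.finRange J).drop (t + 1)) (fun _ => 1))
          (zs gr d r y t) := by
          unfold Lop
          rw [h4]
          exact Finset.single_le_sum
            (f := fun a => wt 0 B K (update (zs gr d r y t) K d) a (y K).1 *
              fw d (wt 0 B) ((List.finRange J).drop (t + 1)) (fun _ => 1) (rep (zs gr d r y t) K a))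
            (fun a _ => mul_nonneg (hnn _ _ _ _) (hfn _ _)) (Finset.mem_univ a)

end Bound

/-- independent sets of the permutation defined by suitable shifts -/
theorem indep_bound {J u n : ℕ} [NeZero u] [NeZero n] (gr : Fin u → Fin u → Fin u)
    (hgr : ∀ b, Injective (fun r => gr r b)) (hgr2 : ∀ r, Injective (gr r)) (κ : ℕ)
    (hκ : ∀ (r : Fin u) (S : Finset (Fin u)), (∀ b ∈ S, ∀ b' ∈ S, ¬ Vis (gr r) id b b') →
      S.card ≤ κ) {β : ℝ} (hβ : 0 ≤ β) (hκβ : (κ : ℝ) ≤ β ^ 2 * u)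
    (m : ℕ) (hm : 0 < m) (η : ℝ) (hη : 0 < η) (hη1 : η ≤ 1) (hmη : 1 ≤ 4 * m * η ^ 2)
    (hJ : 3 ≤ J) (hn : 8 * m * (u : ℝ) ^ 2 * J ≤ η ^ 2 * n) (d : Fin u × Fin n) :
    ∃ r : Fin J → (Fin J → Fin u × Fin n) → Fin u, ∀ S : Finset (Fin J → Fin u × Fin n),
      (∀ v ∈ S, ∀ w ∈ S, ¬ Vis (XX gr d r) YY v w) →
      (S.card : ℝ) ≤ (β ^ J + 2 * J * η) * ((u : ℝ) * n) ^ J := by
  classical
  obtain ⟨r, hr⟩ := choose_all (J := J) (U := Fin u) (E := Fin n) (gr := gr)
    (Ind := fun r S => ∀ b ∈ S, ∀ b' ∈ S, ¬ Vis (gr r) id b b') (κ := κ) hgr hgr2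
    (fun r b hb => absurd hb (Finset.notMem_empty b)) hκ d hβ (by rw [Fintype.card_fin]; exact hκβ)
    m hm η hη hη1 hmη hJ (by rw [Fintype.card_fin, Fintype.card_fin]; exact hn)
  refine ⟨r, fun S hS => ?_⟩
  set R : Fin J → (Fin J → Fin u × Fin n) → Finset (Fin u) := fun k c =>
    (S.filter (fun y => update (zs gr d r y k) k d = c)).image (fun y => (y k).1) with hR
  set B : Fin J → (Fin J → Fin u × Fin n) → Finset (Fin u × Fin u) := fun k c =>
    (R k c).image (fun b => (gr (r k c) b, b)) with hB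
  have hAdm : Adm gr (fun r S => ∀ b ∈ S, ∀ b' ∈ S, ¬ Vis (gr r) id b b') κ 0 r B := by
    intro k c
    refine ⟨fun h => absurd h (Nat.not_lt_zero _), fun _ => ⟨R k c, ?_, rfl⟩⟩
    intro b hb b' hb' hvis
    obtain ⟨y, hy, rfl⟩ := Finset.mem_image.mp hb
    obtain ⟨y', hy', rfl⟩ := Finset.mem_image.mp hb'
    rw [Finset.mem_filter] at hy hy'
    refine hS y hy.1 y' hy'.1 (vis_of_letter hgr2 k y y' (hy.2.trans hy'.2.symm) ?_)
    rw [hy.2]
    exact hvis
  have h1 := hr B hAdm
  have h2 : ∀ y ∈ S, 1 ≤ fw d (wt 0 B) (List.finRange J) (fun _ => 1) y := by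
    intro y hy
    have := one_le_fw (gr := gr) (d := d) (r := r) (B := B) y (by
      intro k
      simp only [hB, hR]
      apply Finset.mem_image.mpr
      refine ⟨(y k).1, ?_, rfl⟩
      apply Finset.mem_image.mpr
      exact ⟨y, Finset.mem_filter.mpr ⟨hy, rfl⟩, rfl⟩) J 0 (by omega)
    rw [List.drop_zero] at this
    exact this
  have hnn : ∀ y, 0 ≤ fw d (wt 0 B) (List.finRange J) (fun _ => 1) y := by
    intro y
    exact fw_nonneg (fun k _ => adm_sub hgr2 hAdm k) (fun _ => zero_le_one) y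
  calc (S.card : ℝ) = ∑ _y ∈ S, (1 : ℝ) := by simp
    _ ≤ ∑ y ∈ S, fw d (wt 0 B) (List.finRange J) (fun _ => 1) y := Finset.sum_le_sum h2
    _ ≤ ∑ y, fw d (wt 0 B) (List.finRange J) (fun _ => 1) y :=
        Finset.sum_le_sum_of_subset_of_nonneg (Finset.subset_univ _) (fun y _ _ => hnn y)
    _ ≤ (β ^ J + 2 * J * η) * Fintype.card (Fin J → Fin u × Fin n) := h1
    _ = (β ^ J + 2 * J * η) * ((u : ℝ) * n) ^ J := by
        rw [Fintype.card_fun, Fintype.card_prod, Fintype.card_fin, Fintype.card_fin,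
          Fintype.card_fin]
        push_cast
        rfl

/-- there is a permutation of `N` points without independent sets of more than `K` points -/
def Good (N : ℕ) (K : ℝ) : Prop := ∃ p : Fin N → Fin N, Injective p ∧
  ∀ S : Finset (Fin N), (∀ v ∈ S, ∀ w ∈ S, ¬ Vis p id v w) → (S.card : ℝ) ≤ K

theorem Good.mono {N : ℕ} {K K' : ℝ} (h : Good N K) (hK : K ≤ K') : Good N K' := by
  obtain ⟨p, hp, hS⟩ := h
  exact ⟨p, hp, fun S h => (hS S h).trans hK⟩

theorem exists_rank {V β : Type*} [Fintype V] [LinearOrder β] (Y : V → β) (hY : Injective Y)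
    {N : ℕ} (hN : Fintype.card V = N) : ∃ e : V ≃ Fin N, ∀ v w, e v ≤ e w ↔ Y v ≤ Y w := by
  let _ := LinearOrder.lift' Y hY
  let e := (Fintype.orderIsoFinOfCardEq V hN).symm
  exact ⟨e.toEquiv, fun v w => e.le_iff_le⟩

/-- a planar configuration is a permutation -/
theorem good_of_conf {V α β : Type*} [Fintype V] [LinearOrder α] [LinearOrder β] (X : V → α)
    (Y : V → β) (hX : Injective X) (hY : Injective Y) {N : ℕ} (hN : Fintype.card V = N) {K : ℝ}
    (h : ∀ S : Finset V, (∀ v ∈ S, ∀ w ∈ S, ¬ Vis X Y v w) → (S.card : ℝ) ≤ K) : Good N K := by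
  classical
  obtain ⟨f, hf⟩ := exists_rank X hX hN
  obtain ⟨e, he⟩ := exists_rank Y hY hN
  have hf' : ∀ v w, f v < f w ↔ X v < X w := by
    intro v w
    rw [← not_le, ← not_le, hf]
  have he' : ∀ v w, e v < e w ↔ Y v < Y w := by
    intro v w
    rw [← not_le, ← not_le, he]
  refine ⟨fun i => f (e.symm i), f.injective.comp e.symm.injective, fun S hS => ?_⟩
  have h1 : (S.image e.symm).card = S.card := Finset.card_image_of_injective _ e.symm.injective
  rw [← h1]
  apply h
  intro v hv w hw hvis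
  obtain ⟨i, hi, rfl⟩ := Finset.mem_image.mp hv
  obtain ⟨j, hj, rfl⟩ := Finset.mem_image.mp hw
  apply hS i hi j hj
  obtain ⟨a1, a2, a3⟩ := hvis
  refine ⟨?_, ?_, ?_⟩
  · have := (he' _ _).mpr a1
    simpa using this
  · exact (hf' _ _).mpr a2
  · intro c c1 c2 c3 c4
    simp only [id] at c1 c2
    have b1 : Y (e.symm i) ≤ Y (e.symm c) := by rw [← he]; simpa using c1
    have b2 : Y (e.symm c) ≤ Y (e.symm j) := by rw [← he]; simpa using c2
    have b3 : X (e.symm i) ≤ X (e.symm c) := by rw [← hf]; exact c3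
    have b4 : X (e.symm c) ≤ X (e.symm j) := by rw [← hf]; exact c4
    rcases a3 (e.symm c) b1 b2 b3 b4 with h | h
    · left; exact e.symm.injective h
    · right; exact e.symm.injective h

/-- cyclic shifts of a permutation -/
theorem shift_indep {u : ℕ} [NeZero u] (p : Fin u → Fin u) {K : ℝ}
    (h : ∀ S : Finset (Fin u), (∀ v ∈ S, ∀ w ∈ S, ¬ Vis p id v w) → (S.card : ℝ) ≤ K)
    (r : Fin u) (S : Finset (Fin u)) (hS : ∀ v ∈ S, ∀ w ∈ S, ¬ Vis (fun b => p b + r) id v w) :
    (S.card : ℝ) ≤ 2 * K := by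
  classical
  have hval : ∀ b, ((p b + r : Fin u) : ℕ) = if u ≤ (p b : ℕ) + r then (p b : ℕ) + r - u
      else (p b : ℕ) + r := fun b => Fin.val_add_eq_ite _ _
  have h1 : ((S.filter (fun b => (p b : ℕ) + r < u)).card : ℝ) ≤ K := by
    apply h
    intro v hv w hw hvis
    rw [Finset.mem_filter] at hv hw
    apply hS v hv.1 w hw.1
    obtain ⟨a1, a2, a3⟩ := hvis
    refine ⟨a1, ?_, ?_⟩
    · simp only [Fin.lt_def] at a2 ⊢
      rw [hval, hval, if_neg (by omega), if_neg (by omega)]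
      omega
    · intro c c1 c2 c3 c4
      have hpw := (p w).isLt
      have hpc := (p c).isLt
      have hpr := r.isLt
      apply a3 c c1 c2
      · simp only [Fin.le_def] at c3 c4 ⊢
        rw [hval, hval] at c3 c4
        split_ifs at c3 c4 <;> omega
      · simp only [Fin.le_def] at c3 c4 ⊢
        rw [hval, hval] at c3 c4
        split_ifs at c3 c4 <;> omega
  have h2 : ((S.filter (fun b => ¬ ((p b : ℕ) + r < u))).card : ℝ) ≤ K := by
    apply h
    intro v hv w hw hvis
    rw [Finset.mem_filter] at hv hw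
    apply hS v hv.1 w hw.1
    obtain ⟨a1, a2, a3⟩ := hvis
    refine ⟨a1, ?_, ?_⟩
    · simp only [Fin.lt_def] at a2 ⊢
      rw [hval, hval, if_pos (by omega), if_pos (by omega)]
      omega
    · intro c c1 c2 c3 c4
      have hpw := (p w).isLt
      have hpc := (p c).isLt
      apply a3 c c1 c2
      · simp only [Fin.le_def] at c3 c4 ⊢
        rw [hval, hval] at c3 c4
        split_ifs at c3 c4 <;> omega
      · simp only [Fin.le_def] at c3 c4 ⊢
        rw [hval, hval] at c3 c4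
        split_ifs at c3 c4 <;> omega
  have h3 := Finset.card_filter_add_card_filter_not (s := S) (fun b => (p b : ℕ) + r < u)
  have h4 : (S.card : ℝ) = ((S.filter (fun b => (p b : ℕ) + r < u)).card : ℝ) +
      ((S.filter (fun b => ¬ ((p b : ℕ) + r < u))).card : ℝ) := by exact_mod_cast h3.symm
  rw [h4]
  linarith

/-- One step, for the family of the cyclic shifts. -/
theorem good_step_family {J u n : ℕ} [NeZero u] [NeZero n] (p : Fin u → Fin u) (hp : Injective p)
    (κ : ℕ) (hκ : ∀ (r : Fin u) (S : Finset (Fin u)),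
      (∀ b ∈ S, ∀ b' ∈ S, ¬ Vis (fun b => p b + r) id b b') → S.card ≤ κ)
    {β : ℝ} (hβ : 0 ≤ β) (hκβ : (κ : ℝ) ≤ β ^ 2 * u)
    (m : ℕ) (hm : 0 < m) (η : ℝ) (hη : 0 < η) (hη1 : η ≤ 1) (hmη : 1 ≤ 4 * m * η ^ 2)
    (hJ : 3 ≤ J) (hn : 8 * m * (u : ℝ) ^ 2 * J ≤ η ^ 2 * n) :
    Good ((u * n) ^ J) ((β ^ J + 2 * J * η) * ((u : ℝ) * n) ^ J) := by
  have hgr : ∀ b, Injective (fun r : Fin u => p b + r) := fun b => add_right_injective _
  have hgr2 : ∀ r : Fin u, Injective (fun b => p b + r) := fun r =>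
    (add_left_injective r).comp hp
  obtain ⟨r, hr⟩ := indep_bound (J := J) (n := n) (fun r b => p b + r) hgr hgr2 κ hκ hβ hκβ m hm η
    hη hη1 hmη hJ hn (0, 0)
  refine good_of_conf (XX (fun r b => p b + r) (0, 0) r) YY (XX_inj hgr2) YY_inj ?_ hr
  rw [Fintype.card_fun, Fintype.card_prod, Fintype.card_fin, Fintype.card_fin, Fintype.card_fin]

/-- One step of the construction. -/
theorem good_step {J u n : ℕ} (hu : 0 < u) (hn0 : 0 < n) {K : ℝ} (hG : Good u K) {β : ℝ}
    (hβ : 0 ≤ β) (hκβ : 2 * K ≤ β ^ 2 * u)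
    (m : ℕ) (hm : 0 < m) (η : ℝ) (hη : 0 < η) (hη1 : η ≤ 1) (hmη : 1 ≤ 4 * m * η ^ 2)
    (hJ : 3 ≤ J) (hn : 8 * m * (u : ℝ) ^ 2 * J ≤ η ^ 2 * n) :
    Good ((u * n) ^ J) ((β ^ J + 2 * J * η) * ((u : ℝ) * n) ^ J) := by
  have : NeZero u := ⟨hu.ne'⟩
  have : NeZero n := ⟨hn0.ne'⟩
  obtain ⟨p, hp, hS⟩ := hG
  have hK0 : 0 ≤ K := by
    have := hS ∅ (fun v hv => absurd hv (Finset.notMem_empty v))
    simpa using this
  apply good_step_family p hp ⌊2 * K⌋₊ _ hβ _ m hm η hη hη1 hmη hJ hn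
  · intro r S hS'
    apply Nat.le_floor
    exact shift_indep p hS r S hS'
  · exact (Nat.floor_le (by positivity)).trans hκβ

end Pool.Agent.Helper55.RD
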