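import Mathlib

/-!
Two counting lemmas: an exponential moment bound for sums of independent bounded variables, and the
mean absolute error of the mean of a sample.
-/

namespace Pool.Agent.Helper55.RD

open Finset

/-- Counting form of an exponential moment bound. The entries `ρ c` are independent; the mean of
`h c` is at most `w c`; the sum of the `h c (ρ c)` rarely exceeds the sum of the `w c` by a
proportion `η`. -/
theorem chernoff {C R : Type*} [Fintype C] [DecidableEq C] [Fintype R] (h : C → R → ℝ) (w : C → ℝ)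
    (h0 : ∀ c r, 0 ≤ h c r) (h1 : ∀ c r, h c r ≤ 1) (w0 : ∀ c, 0 ≤ w c) (w1 : ∀ c, w c ≤ 1)
    (hw : ∀ c, ∑ r, h c r ≤ Fintype.card R * w c) (η : ℝ) (hη : 0 < η) (hη1 : η ≤ 1)
    (bad : Finset (C → R))
    (hbad : ∀ ρ ∈ bad, ∑ c, w c + η * Fintype.card C < ∑ c, h c (ρ c)) :
    (bad.card : ℝ) ≤ Real.exp (-(η ^ 2 * Fintype.card C / 4)) * (Fintype.card R : ℝ) ^ Fintype.card C := by
  classical
  set l : ℝ := η / 2 with hl
  have hl0 : 0 < l := by positivity
  have hl1 : l ≤ 1 := by rw [hl]; linarith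
  -- the moment generating function
  have key : ∀ c, ∑ r, Real.exp (l * (h c r - w c)) ≤ Fintype.card R * Real.exp (l ^ 2) := by
    intro c
    have e1 : ∀ r, Real.exp (l * (h c r - w c)) ≤ 1 + l * (h c r - w c) + l ^ 2 := by
      intro r
      have hy : |h c r - w c| ≤ 1 := by
        rw [abs_le]; constructor
        · linarith [h0 c r, w1 c]
        · linarith [h1 c r, w0 c]
      have hy2 : |l * (h c r - w c)| ≤ l := by
        rw [abs_mul, abs_of_pos hl0]
        calc l * |h c r - w c| ≤ l * 1 := by gcongr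
          _ = l := mul_one _
      have h3 := Real.abs_exp_sub_one_sub_id_le (hy2.trans hl1)
      have h4 := (abs_le.mp h3).2
      have h5 : (l * (h c r - w c)) ^ 2 ≤ l ^ 2 := by
        rw [← sq_abs]
        exact pow_le_pow_left₀ (abs_nonneg _) hy2 2
      linarith
    calc ∑ r, Real.exp (l * (h c r - w c)) ≤ ∑ r, (1 + l * (h c r - w c) + l ^ 2) :=
          Finset.sum_le_sum (fun r _ => e1 r)
      _ = Fintype.card R * (1 + l ^ 2) + l * (∑ r, h c r - Fintype.card R * w c) := by
          rw [Finset.sum_add_distrib, Finset.sum_add_distrib, ← Finset.mul_sum,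
            Finset.sum_sub_distrib]
          simp only [sum_const, card_univ, nsmul_eq_mul, mul_one]
          ring
      _ ≤ Fintype.card R * (1 + l ^ 2) := by
          have : l * (∑ r, h c r - Fintype.card R * w c) ≤ 0 :=
            mul_nonpos_of_nonneg_of_nonpos hl0.le (by linarith [hw c])
          linarith
      _ ≤ Fintype.card R * Real.exp (l ^ 2) := by
          gcongr
          linarith [Real.add_one_le_exp (l ^ 2)]
  have prod : ∑ ρ : C → R, Real.exp (∑ c, l * (h c (ρ c) - w c)) =
      ∏ c, ∑ r, Real.exp (l * (h c r - w c)) := by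
    rw [Finset.prod_univ_sum]
    rw [Fintype.piFinset_univ]
    apply Finset.sum_congr rfl
    intro ρ _
    rw [Real.exp_sum]
  have total : ∑ ρ : C → R, Real.exp (∑ c, l * (h c (ρ c) - w c)) ≤
      (Fintype.card R : ℝ) ^ Fintype.card C * Real.exp (l ^ 2 * Fintype.card C) := by
    rw [prod]
    calc ∏ c, ∑ r, Real.exp (l * (h c r - w c)) ≤ ∏ _c : C, (Fintype.card R * Real.exp (l ^ 2)) := by
          apply Finset.prod_le_prod
          · intro c _
            exact Finset.sum_nonneg (fun r _ => (Real.exp_pos _).le)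
          · intro c _
            exact key c
      _ = (Fintype.card R : ℝ) ^ Fintype.card C * Real.exp (l ^ 2 * Fintype.card C) := by
          rw [Finset.prod_const, card_univ, mul_pow, ← Real.exp_nat_mul]
          congr 2
          ring
  have lower : (bad.card : ℝ) * Real.exp (l * (η * Fintype.card C)) ≤
      ∑ ρ : C → R, Real.exp (∑ c, l * (h c (ρ c) - w c)) := by
    calc (bad.card : ℝ) * Real.exp (l * (η * Fintype.card C))
        = ∑ _ρ ∈ bad, Real.exp (l * (η * Fintype.card C)) := by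
          rw [Finset.sum_const, nsmul_eq_mul]
      _ ≤ ∑ ρ ∈ bad, Real.exp (∑ c, l * (h c (ρ c) - w c)) := by
          apply Finset.sum_le_sum
          intro ρ hρ
          apply Real.exp_le_exp.mpr
          rw [← Finset.mul_sum, Finset.sum_sub_distrib]
          gcongr
          linarith [hbad ρ hρ]
      _ ≤ _ := Finset.sum_le_sum_of_subset_of_nonneg (Finset.subset_univ _)
          (fun _ _ _ => (Real.exp_pos _).le)
  have h6 := lower.trans total
  have h7 : (bad.card : ℝ) = (bad.card : ℝ) * Real.exp (l * (η * Fintype.card C)) *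
      Real.exp (-(l * (η * Fintype.card C))) := by
    rw [mul_assoc, ← Real.exp_add]; simp
  rw [h7]
  calc (bad.card : ℝ) * Real.exp (l * (η * Fintype.card C)) *
      Real.exp (-(l * (η * Fintype.card C)))
      ≤ (Fintype.card R : ℝ) ^ Fintype.card C * Real.exp (l ^ 2 * Fintype.card C) *
      Real.exp (-(l * (η * Fintype.card C))) := by gcongr
    _ = Real.exp (-(η ^ 2 * Fintype.card C / 4)) * (Fintype.card R : ℝ) ^ Fintype.card C := by
        rw [mul_assoc, ← Real.exp_add, mul_comm]
        congr 2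
        rw [hl]; ring

/-- the sum of the squares of the deviations of a sample of size `m` -/
theorem sample_var {E : Type*} [Fintype E] (Y : E → ℝ) (hY : ∑ e, Y e = 0) (m : ℕ) :
    ∑ s : Fin m → E, (∑ l, Y (s l)) ^ 2 * Fintype.card E =
      m * (Fintype.card E : ℝ) ^ m * ∑ e, Y e ^ 2 := by
  induction m with
  | zero => simp
  | succ m ih =>
    have e1 : ∑ s : Fin (m + 1) → E, (∑ l, Y (s l)) ^ 2 * (Fintype.card E : ℝ) =
        ∑ p : E × (Fin m → E), (Y p.1 + ∑ l, Y (p.2 l)) ^ 2 * (Fintype.card E : ℝ) := by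
      rw [← (Fin.consEquiv (fun _ : Fin (m + 1) => E)).sum_comp]
      apply Finset.sum_congr rfl
      intro p _
      rw [Fin.sum_univ_succ]
      rfl
    rw [e1, Fintype.sum_prod_type]
    have e2 : ∀ e : E, ∑ s : Fin m → E, (Y e + ∑ l, Y (s l)) ^ 2 * (Fintype.card E : ℝ) =
        (Fintype.card E : ℝ) ^ m * Fintype.card E * Y e ^ 2 +
        2 * (Y e * Fintype.card E * ∑ s : Fin m → E, ∑ l, Y (s l)) +
        m * (Fintype.card E : ℝ) ^ m * ∑ e, Y e ^ 2 := by
      intro e
      rw [← ih]
      have : ∀ s : Fin m → E, (Y e + ∑ l, Y (s l)) ^ 2 * (Fintype.card E : ℝ) =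
          Fintype.card E * Y e ^ 2 + 2 * (Y e * Fintype.card E) * (∑ l, Y (s l)) +
          (∑ l, Y (s l)) ^ 2 * Fintype.card E := by intro s; ring
      simp only [this]
      rw [Finset.sum_add_distrib, Finset.sum_add_distrib,
        ← Finset.mul_sum univ (fun s : Fin m → E => ∑ l, Y (s l)) (2 * (Y e * Fintype.card E))]
      simp only [sum_const, card_univ, Fintype.card_fun, Fintype.card_fin, nsmul_eq_mul]
      push_cast
      ring
    simp only [e2]
    rw [Finset.sum_add_distrib, Finset.sum_add_distrib, ← Finset.mul_sum, ← Finset.mul_sum]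
    have e3 : ∑ e : E, Y e * Fintype.card E * ∑ s : Fin m → E, ∑ l, Y (s l) = 0 := by
      rw [← Finset.sum_mul, ← Finset.sum_mul, hY]; ring
    rw [e3]
    simp only [sum_const, card_univ, nsmul_eq_mul]
    push_cast
    ring

/-- the mean absolute error of the mean of a sample of size `m` -/
theorem sample_abs {E : Type*} [Fintype E] [Nonempty E] (X : E → ℝ) (h0 : ∀ e, 0 ≤ X e)
    (h1 : ∀ e, X e ≤ 1) (m : ℕ) (hm : 0 < m) (η : ℝ) (hη : 0 < η) (hmη : 1 ≤ 4 * m * η ^ 2) :
    ∑ s : Fin m → E, |(∑ l, X (s l)) / m - (∑ e, X e) / Fintype.card E| ≤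
      (Fintype.card E : ℝ) ^ m * η := by
  set n : ℝ := (Fintype.card E : ℝ) with hn
  have hn0 : 0 < n := by rw [hn]; exact_mod_cast Fintype.card_pos
  have hm0 : (0 : ℝ) < m := by exact_mod_cast hm
  set μ : ℝ := (∑ e, X e) / n with hμ
  have hμ0 : 0 ≤ μ := div_nonneg (Finset.sum_nonneg (fun e _ => h0 e)) hn0.le
  have hsum : ∑ e, X e = n * μ := by rw [hμ]; field_simp
  have hY : ∑ e, (X e - μ) = 0 := by
    rw [Finset.sum_sub_distrib, hsum]
    simp only [sum_const, card_univ, nsmul_eq_mul]
    ring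
  have hvar := sample_var (fun e => X e - μ) hY m
  have hV : ∑ e, (X e - μ) ^ 2 ≤ n / 4 := by
    have e1 : ∑ e, (X e - μ) ^ 2 ≤ ∑ e, ((1 - 2 * μ) * X e + μ ^ 2) := by
      apply Finset.sum_le_sum
      intro e _
      have : X e ^ 2 ≤ X e := by
        rw [sq]
        exact mul_le_of_le_one_left (h0 e) (h1 e)
      nlinarith
    refine e1.trans ?_
    rw [Finset.sum_add_distrib, ← Finset.mul_sum, hsum]
    simp only [sum_const, card_univ, nsmul_eq_mul]
    have : 0 ≤ n * (1 / 2 - μ) ^ 2 := by positivity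
    nlinarith
  have hsq : ∑ s : Fin m → E, (∑ l, (X (s l) - μ)) ^ 2 ≤ m * n ^ m / 4 := by
    have e1 : (∑ s : Fin m → E, (∑ l, (X (s l) - μ)) ^ 2) * n ≤ (m * n ^ m / 4) * n := by
      rw [Finset.sum_mul, hvar]
      calc m * n ^ m * ∑ e, (X e - μ) ^ 2 ≤ m * n ^ m * (n / 4) := by gcongr
        _ = _ := by ring
    exact le_of_mul_le_mul_right e1 hn0
  have hcs : (∑ s : Fin m → E, |∑ l, (X (s l) - μ)|) ^ 2 ≤ n ^ m * (m * n ^ m / 4) := by
    calc (∑ s : Fin m → E, |∑ l, (X (s l) - μ)|) ^ 2
        ≤ (univ : Finset (Fin m → E)).card * ∑ s : Fin m → E, |∑ l, (X (s l) - μ)| ^ 2 :=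
          sq_sum_le_card_mul_sum_sq
      _ = n ^ m * ∑ s : Fin m → E, (∑ l, (X (s l) - μ)) ^ 2 := by
          simp only [sq_abs, card_univ, Fintype.card_fun, Fintype.card_fin]
          push_cast
          rfl
      _ ≤ _ := by gcongr
  have hcs2 : ∑ s : Fin m → E, |∑ l, (X (s l) - μ)| ≤ n ^ m * (η * m) := by
    apply abs_le_of_sq_le_sq' _ (by positivity) |>.2
    refine hcs.trans ?_
    have : (n ^ m * (η * m)) ^ 2 = n ^ m * (m * n ^ m / 4) * (4 * m * η ^ 2) := by ring
    rw [this]
    exact le_mul_of_one_le_right (by positivity) hmη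
  have e2 : ∀ s : Fin m → E, |(∑ l, X (s l)) / m - μ| = |∑ l, (X (s l) - μ)| / m := by
    intro s
    rw [Finset.sum_sub_distrib]
    simp only [sum_const, card_univ, Fintype.card_fin, nsmul_eq_mul]
    rw [← abs_of_pos hm0, ← abs_div, abs_of_pos hm0]
    congr 1
    field_simp
  simp only [e2]
  rw [← Finset.sum_div, div_le_iff₀ hm0]
  calc _ ≤ n ^ m * (η * m) := hcs2
    _ = _ := by ring

end Pool.Agent.Helper55.RD
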