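import Mathlib

/-!
The digit operators on functions of mixed vectors.
-/

namespace Pool.Agent.Helper55.RD

open Finset Function

set_option linter.unusedSectionVars false

section Ops

variable {J : ℕ} {U E : Type*} [Fintype U] [Fintype E] [DecidableEq U] [DecidableEq E]

/-- replace the letter of the digit `k` -/
def rep (z : Fin J → U × E) (k : Fin J) (a : U) : Fin J → U × E := update z k (a, (z k).2)

theorem rep_rep (z : Fin J → U × E) (k : Fin J) (a b : U) : rep (rep z k a) k b = rep z k b := by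
  unfold rep; simp

theorem rep_self (z : Fin J → U × E) (k : Fin J) : rep z k (z k).1 = z := by
  unfold rep; simp

theorem rep_same (z : Fin J → U × E) (k : Fin J) (a : U) : rep z k a k = (a, (z k).2) := by
  unfold rep; simp

theorem rep_other (z : Fin J → U × E) {k j : Fin J} (h : j ≠ k) (a : U) : rep z k a j = z j := by
  unfold rep; simp [h]

theorem update_rep (z : Fin J → U × E) (k : Fin J) (a : U) (d : U × E) :
    update (rep z k a) k d = update z k d := by
  unfold rep; simp

/-- exchange of the letter of the digit `k` with a given letter -/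
def swapEquiv (k : Fin J) : ((Fin J → U × E) × U) ≃ ((Fin J → U × E) × U) where
  toFun p := (rep p.1 k p.2, (p.1 k).1)
  invFun p := (rep p.1 k p.2, (p.1 k).1)
  left_inv p := by
    obtain ⟨z, a⟩ := p
    simp only [rep_rep, rep_self, rep_same]
  right_inv p := by
    obtain ⟨z, a⟩ := p
    simp only [rep_rep, rep_self, rep_same]

theorem sum_swap (k : Fin J) (G : (Fin J → U × E) → U → ℝ) :
    ∑ z, ∑ a, G z a = ∑ z, ∑ a, G (rep z k a) (z k).1 := by
  rw [← Fintype.sum_prod_type', ← Fintype.sum_prod_type']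
  exact ((swapEquiv k).sum_comp (fun p : (Fin J → U × E) × U => G p.1 p.2)).symm

theorem sum_rep (k : Fin J) (F : (Fin J → U × E) → ℝ) :
    ∑ z, ∑ a, F (rep z k a) = Fintype.card U * ∑ z, F z := by
  have h := sum_swap k (fun z _ => F z)
  rw [← h]
  simp [Finset.mul_sum]

/-- the forward operator of the digit `k` -/
def Lop (d : U × E) (w : Fin J → (Fin J → U × E) → U → U → ℝ) (k : Fin J)
    (h : (Fin J → U × E) → ℝ) (z : Fin J → U × E) : ℝ :=
  ∑ a, w k (update z k d) a (z k).1 * h (rep z k a)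

/-- the backward operator of the digit `k` -/
def Rop (d : U × E) (w : Fin J → (Fin J → U × E) → U → U → ℝ) (k : Fin J)
    (f : (Fin J → U × E) → ℝ) (z : Fin J → U × E) : ℝ :=
  ∑ b, w k (update z k d) (z k).1 b * f (rep z k b)

variable {d : U × E} {w w' : Fin J → (Fin J → U × E) → U → U → ℝ}

theorem adjoint (k : Fin J) (f h : (Fin J → U × E) → ℝ) :
    ∑ z, f z * Lop d w k h z = ∑ z, Rop d w k f z * h z := by
  unfold Lop Rop
  simp only [Finset.mul_sum, Finset.sum_mul]
  rw [sum_swap k]
  apply Finset.sum_congr rfl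
  intro z _
  apply Finset.sum_congr rfl
  intro a _
  rw [rep_rep, rep_self, update_rep, rep_same]
  ring

/-- composition of forward operators -/
def fw (d : U × E) (w : Fin J → (Fin J → U × E) → U → U → ℝ) (l : List (Fin J))
    (h : (Fin J → U × E) → ℝ) : (Fin J → U × E) → ℝ := l.foldr (fun k h => Lop d w k h) h

/-- composition of backward operators -/
def bw (d : U × E) (w : Fin J → (Fin J → U × E) → U → U → ℝ) (l : List (Fin J))
    (f : (Fin J → U × E) → ℝ) : (Fin J → U × E) → ℝ := l.foldl (fun f k => Rop d w k f) f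

theorem fw_nil (h : (Fin J → U × E) → ℝ) : fw d w [] h = h := rfl

theorem fw_cons (k : Fin J) (l : List (Fin J)) (h : (Fin J → U × E) → ℝ) :
    fw d w (k :: l) h = Lop d w k (fw d w l h) := rfl

theorem bw_nil (h : (Fin J → U × E) → ℝ) : bw d w [] h = h := rfl

theorem bw_cons (k : Fin J) (l : List (Fin J)) (f : (Fin J → U × E) → ℝ) :
    bw d w (k :: l) f = bw d w l (Rop d w k f) := rfl

theorem fw_append (l l' : List (Fin J)) (h : (Fin J → U × E) → ℝ) :
    fw d w (l ++ l') h = fw d w l (fw d w l' h) := by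
  unfold fw; rw [List.foldr_append]

theorem adjoint_list (l : List (Fin J)) (f h : (Fin J → U × E) → ℝ) :
    ∑ z, f z * fw d w l h z = ∑ z, bw d w l f z * h z := by
  induction l generalizing f with
  | nil => rfl
  | cons k l ih => rw [fw_cons, bw_cons, adjoint, ih]

/-- the total mass, split at the digit `k` -/
theorem split_sum (l l' : List (Fin J)) (k : Fin J) :
    ∑ z, fw d w (l ++ k :: l') (fun _ => 1) z =
      ∑ z, bw d w l (fun _ => 1) z * Lop d w k (fw d w l' (fun _ => 1)) z := by
  rw [fw_append, fw_cons, ← adjoint_list]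
  simp

/-- the weights are nonnegative with row and column sums at most one -/
structure Sub (w : Fin J → (Fin J → U × E) → U → U → ℝ) (k : Fin J) : Prop where
  nonneg : ∀ c a b, 0 ≤ w k c a b
  row : ∀ c b, ∑ a, w k c a b ≤ 1
  col : ∀ c a, ∑ b, w k c a b ≤ 1

theorem fw_nonneg {l : List (Fin J)} (hw : ∀ k ∈ l, Sub w k) {h : (Fin J → U × E) → ℝ}
    (h0 : ∀ z, 0 ≤ h z) (z : Fin J → U × E) : 0 ≤ fw d w l h z := by
  induction l generalizing z with
  | nil => exact h0 z
  | cons k l ih =>
    rw [fw_cons]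
    exact Finset.sum_nonneg (fun a _ => mul_nonneg ((hw k (by simp)).nonneg _ _ _)
      (ih (fun k' hk' => hw k' (by simp [hk'])) _))

theorem fw_le_one {l : List (Fin J)} (hw : ∀ k ∈ l, Sub w k) {h : (Fin J → U × E) → ℝ}
    (h1 : ∀ z, h z ≤ 1) (z : Fin J → U × E) : fw d w l h z ≤ 1 := by
  induction l generalizing z with
  | nil => exact h1 z
  | cons k l ih =>
    rw [fw_cons]
    calc Lop d w k (fw d w l h) z ≤ ∑ a, w k (update z k d) a (z k).1 * 1 := by
          apply Finset.sum_le_sum
          intro a _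
          exact mul_le_mul_of_nonneg_left (ih (fun k' hk' => hw k' (by simp [hk'])) _)
            ((hw k (by simp)).nonneg _ _ _)
      _ ≤ 1 := by
          simp only [mul_one]
          exact (hw k (by simp)).row _ _

theorem bw_mem {l : List (Fin J)} (hw : ∀ k ∈ l, Sub w k) {f : (Fin J → U × E) → ℝ}
    (h0 : ∀ z, 0 ≤ f z) (h1 : ∀ z, f z ≤ 1) (z : Fin J → U × E) :
    0 ≤ bw d w l f z ∧ bw d w l f z ≤ 1 := by
  induction l generalizing f with
  | nil => exact ⟨h0 z, h1 z⟩
  | cons k l ih =>
    rw [bw_cons]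
    apply ih (fun k' hk' => hw k' (by simp [hk']))
    · intro z
      exact Finset.sum_nonneg (fun a _ => mul_nonneg ((hw k (by simp)).nonneg _ _ _) (h0 _))
    · intro z
      calc Rop d w k f z ≤ ∑ b, w k (update z k d) (z k).1 b * 1 := by
            apply Finset.sum_le_sum
            intro a _
            exact mul_le_mul_of_nonneg_left (h1 _) ((hw k (by simp)).nonneg _ _ _)
        _ ≤ 1 := by
            simp only [mul_one]
            exact (hw k (by simp)).col _ _

/-- locality of the forward operators -/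
theorem fw_local {l : List (Fin J)} {j : Fin J} (hj : j ∉ l) {e : E}
    (hw : ∀ k ∈ l, ∀ c : Fin J → U × E, c k = d → (c j).2 = e → w k c = w' k c)
    (h : (Fin J → U × E) → ℝ) (z : Fin J → U × E) (hz : (z j).2 = e) :
    fw d w l h z = fw d w' l h z := by
  induction l generalizing z with
  | nil => rfl
  | cons k l ih =>
    rw [List.mem_cons, not_or] at hj
    rw [fw_cons, fw_cons]
    apply Finset.sum_congr rfl
    intro a _
    rw [hw k (by simp) (update z k d) (by simp) (by rw [update_of_ne hj.1]; exact hz),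
      ih hj.2 (fun k' hk' => hw k' (by simp [hk'])) _ (by rw [rep_other _ hj.1]; exact hz)]

/-- locality of the backward operators -/
theorem bw_local {l : List (Fin J)} {j : Fin J} (hj : j ∉ l) {e : E}
    (hw : ∀ k ∈ l, ∀ c : Fin J → U × E, c k = d → (c j).2 = e → w k c = w' k c)
    {f f' : (Fin J → U × E) → ℝ} (hf : ∀ z : Fin J → U × E, (z j).2 = e → f z = f' z)
    (z : Fin J → U × E) (hz : (z j).2 = e) :
    bw d w l f z = bw d w' l f' z := by
  induction l generalizing f f' with
  | nil => exact hf z hz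
  | cons k l ih =>
    rw [List.mem_cons, not_or] at hj
    rw [bw_cons, bw_cons]
    apply ih hj.2 (fun k' hk' => hw k' (by simp [hk']))
    intro z hz
    apply Finset.sum_congr rfl
    intro a _
    rw [hw k (by simp) (update z k d) (by simp) (by rw [update_of_ne hj.1]; exact hz),
      hf _ (by rw [rep_other _ hj.1]; exact hz)]

/-- the square norm bound for one operator -/
theorem Lop_sq (k : Fin J) {γ : ℝ} (hγ : ∀ c, ∑ b, ∑ a, w k c a b ^ 2 ≤ γ) [Nonempty U]
    (h : (Fin J → U × E) → ℝ) :
    ∑ z, Lop d w k h z ^ 2 ≤ γ * ∑ z, h z ^ 2 := by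
  have hU : (0 : ℝ) < Fintype.card U := by exact_mod_cast Fintype.card_pos
  have h1 : ∀ z, Lop d w k h z ^ 2 ≤
      (∑ a, w k (update z k d) a (z k).1 ^ 2) * ∑ a, h (rep z k a) ^ 2 := by
    intro z
    exact Finset.sum_mul_sq_le_sq_mul_sq _ _ _
  have h2 : Fintype.card U * ∑ z, (∑ a, w k (update z k d) a (z k).1 ^ 2) *
      ∑ a, h (rep z k a) ^ 2 ≤ Fintype.card U * (γ * ∑ z, h z ^ 2) := by
    rw [← sum_rep k]
    have e1 : ∀ z : Fin J → U × E, ∑ b, (∑ a, w k (update (rep z k b) k d) a (rep z k b k).1 ^ 2) *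
        ∑ a, h (rep (rep z k b) k a) ^ 2 =
        (∑ b, ∑ a, w k (update z k d) a b ^ 2) * ∑ a, h (rep z k a) ^ 2 := by
      intro z
      rw [Finset.sum_mul]
      apply Finset.sum_congr rfl
      intro b _
      simp only [update_rep, rep_same, rep_rep]
    simp only [e1]
    calc ∑ z : Fin J → U × E, (∑ b, ∑ a, w k (update z k d) a b ^ 2) * ∑ a, h (rep z k a) ^ 2
        ≤ ∑ z : Fin J → U × E, γ * ∑ a, h (rep z k a) ^ 2 := by
          apply Finset.sum_le_sum
          intro z _
          exact mul_le_mul_of_nonneg_right (hγ _) (Finset.sum_nonneg (fun a _ => sq_nonneg _))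
      _ = _ := by
          rw [← Finset.mul_sum, sum_rep k (fun z => h z ^ 2)]
          ring
  refine (Finset.sum_le_sum (fun z _ => h1 z)).trans ?_
  exact le_of_mul_le_mul_left h2 hU

theorem fw_sq (l : List (Fin J)) {γ : ℝ} (hγ0 : 0 ≤ γ)
    (hγ : ∀ k ∈ l, ∀ c, ∑ b, ∑ a, w k c a b ^ 2 ≤ γ)
    [Nonempty U] (h : (Fin J → U × E) → ℝ) :
    ∑ z, fw d w l h z ^ 2 ≤ γ ^ l.length * ∑ z, h z ^ 2 := by
  induction l with
  | nil => simp [fw_nil]
  | cons k l ih =>
    rw [fw_cons]
    calc ∑ z, Lop d w k (fw d w l h) z ^ 2 ≤ γ * ∑ z, fw d w l h z ^ 2 :=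
          Lop_sq k (hγ k (by simp)) _
      _ ≤ γ * (γ ^ l.length * ∑ z, h z ^ 2) := by
          gcongr
          exact ih (fun k' hk' => hγ k' (by simp [hk']))
      _ = _ := by rw [List.length_cons]; ring

/-- the ideal value -/
theorem fw_total (l : List (Fin J)) {β : ℝ} (hβ : 0 ≤ β)
    (hγ : ∀ k ∈ l, ∀ c, ∑ b, ∑ a, w k c a b ^ 2 ≤ β ^ 2) [Nonempty U] :
    ∑ z, fw d w l (fun _ => 1) z ≤ β ^ l.length * Fintype.card (Fin J → U × E) := by
  apply abs_le_of_sq_le_sq' _ (by positivity) |>.2
  calc (∑ z, fw d w l (fun _ => 1) z) ^ 2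
      ≤ (univ : Finset (Fin J → U × E)).card * ∑ z, fw d w l (fun _ => 1) z ^ 2 :=
        sq_sum_le_card_mul_sum_sq
    _ ≤ (univ : Finset (Fin J → U × E)).card *
        ((β ^ 2) ^ l.length * ∑ _z : Fin J → U × E, (1 : ℝ) ^ 2) := by
        gcongr
        exact fw_sq l (sq_nonneg β) hγ _
    _ = (β ^ l.length * Fintype.card (Fin J → U × E)) ^ 2 := by
        simp only [one_pow, sum_const, card_univ, nsmul_eq_mul, mul_one]
        ring

end Ops

end Pool.Agent.Helper55.RD
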