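import Pool.Agent.Helper55.RD.OneDigit
import Pool.Agent.Helper55.RD.Ops

/-!
Successive choice of the shifts of the digits.
-/

namespace Pool.Agent.Helper55.RD

open Finset Function

set_option linter.unusedSectionVars false

section Hybrid

variable {J : ℕ} {U E : Type*} [Fintype U] [Fintype E] [DecidableEq U] [DecidableEq E]

/-- mixed vectors as pairs of a context and the value of the digit `K` -/
def ctxEquiv (K : Fin J) (d : U × E) :
    ({c : Fin J → U × E // c K = d} × (U × E)) ≃ (Fin J → U × E) where
  toFun p := update p.1.1 K p.2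
  invFun z := (⟨update z K d, by simp⟩, z K)
  left_inv p := by
    obtain ⟨⟨c, hc⟩, v⟩ := p
    simp only [update_idem, update_self, Prod.mk.injEq, Subtype.mk.injEq, and_true]
    rw [← hc, update_eq_self]
  right_inv z := by simp

theorem card_ctx (K : Fin J) (d : U × E) :
    Fintype.card {c : Fin J → U × E // c K = d} * (Fintype.card U * Fintype.card E) =
      Fintype.card (Fin J → U × E) := by
  rw [← Fintype.card_prod U E, ← Fintype.card_prod]
  exact Fintype.card_congr (ctxEquiv K d)

/-- the total mass as a sum over the contexts of the digit `K` -/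
theorem mass {d : U × E} {w : Fin J → (Fin J → U × E) → U → U → ℝ} (l l' : List (Fin J))
    (K : Fin J) :
    ∑ z, fw d w (l ++ K :: l') (fun _ => 1) z =
      ∑ c : {c : Fin J → U × E // c K = d}, ∑ e : E, ∑ p : U × U, w K c.1 p.1 p.2 *
        (bw d w l (fun _ => 1) (update c.1 K (p.2, e)) *
          fw d w l' (fun _ => 1) (update c.1 K (p.1, e))) := by
  rw [split_sum, ← (ctxEquiv K d).sum_comp, Fintype.sum_prod_type]
  apply Finset.sum_congr rfl
  rintro ⟨c, hc⟩ _
  rw [Fintype.sum_prod_type_right]
  apply Finset.sum_congr rfl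
  intro e _
  rw [Fintype.sum_prod_type_right]
  apply Finset.sum_congr rfl
  intro b _
  have h1 : (ctxEquiv K d) (⟨c, hc⟩, (b, e)) = update c K (b, e) := rfl
  rw [h1]
  unfold Lop
  rw [Finset.mul_sum]
  apply Finset.sum_congr rfl
  intro a _
  have h2 : update (update c K (b, e)) K d = c := by
    rw [update_idem, ← hc, update_eq_self]
  have h3 : rep (update c K (b, e)) K a = update c K (a, e) := by
    unfold rep; simp
  rw [h2, h3, update_self]
  ring

/-- weights of the hybrid model: the digits below `j` are ideal -/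
noncomputable def wt (j : ℕ) (B : Fin J → (Fin J → U × E) → Finset (U × U)) (k : Fin J)
    (c : Fin J → U × E) (a b : U) : ℝ :=
  if (a, b) ∈ B k c then (if (k : ℕ) < j then (Fintype.card U : ℝ)⁻¹ else 1) else 0

/-- admissible families of the hybrid model -/
def Adm (gr : U → U → U) (Ind : U → Finset U → Prop) (κ j : ℕ)
    (r : Fin J → (Fin J → U × E) → U) (B : Fin J → (Fin J → U × E) → Finset (U × U)) : Prop :=
  ∀ (k : Fin J) (c : Fin J → U × E), ((k : ℕ) < j → (B k c).card ≤ κ * Fintype.card U) ∧
    (j ≤ (k : ℕ) → ∃ S, Ind (r k c) S ∧ B k c = S.image (fun b => (gr (r k c) b, b)))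

theorem adm_sub [Nonempty U] {gr : U → U → U} {Ind : U → Finset U → Prop} {κ j : ℕ}
    {r : Fin J → (Fin J → U × E) → U} {B : Fin J → (Fin J → U × E) → Finset (U × U)}
    (hgr2 : ∀ r, Injective (gr r)) (hB : Adm gr Ind κ j r B) (k : Fin J) : Sub (wt j B) k := by
  have hU : (0 : ℝ) < Fintype.card U := by exact_mod_cast Fintype.card_pos
  constructor
  · intro c a b
    unfold wt
    split_ifs <;> positivity
  · intro c b
    rcases lt_or_ge (k : ℕ) j with hk | hk
    · calc ∑ a, wt j B k c a b ≤ ∑ _a : U, (Fintype.card U : ℝ)⁻¹ := by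
            apply Finset.sum_le_sum
            intro a _
            unfold wt
            rw [if_pos hk]
            split_ifs
            · exact le_refl _
            · positivity
        _ = 1 := by
            rw [sum_const, card_univ, nsmul_eq_mul, mul_inv_cancel₀ hU.ne']
    · obtain ⟨S, -, hS⟩ := (hB k c).2 hk
      calc ∑ a, wt j B k c a b ≤ ∑ a, (if a = gr (r k c) b then (1 : ℝ) else 0) := by
            apply Finset.sum_le_sum
            intro a _
            unfold wt
            rw [if_neg (not_lt.mpr hk), hS]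
            split_ifs with h1 h2 h2
            · exact le_refl _
            · exfalso
              obtain ⟨b', _, hb'⟩ := Finset.mem_image.mp h1
              simp only [Prod.mk.injEq] at hb'
              obtain ⟨h3, rfl⟩ := hb'
              exact h2 h3.symm
            · exact zero_le_one
            · exact le_refl _
        _ = 1 := by simp
  · intro c a
    rcases lt_or_ge (k : ℕ) j with hk | hk
    · calc ∑ b, wt j B k c a b ≤ ∑ _b : U, (Fintype.card U : ℝ)⁻¹ := by
            apply Finset.sum_le_sum
            intro b _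
            unfold wt
            rw [if_pos hk]
            split_ifs
            · exact le_refl _
            · positivity
        _ = 1 := by
            rw [sum_const, card_univ, nsmul_eq_mul, mul_inv_cancel₀ hU.ne']
    · obtain ⟨S, -, hS⟩ := (hB k c).2 hk
      by_cases hex : ∃ b0, gr (r k c) b0 = a
      · obtain ⟨b0, hb0⟩ := hex
        calc ∑ b, wt j B k c a b ≤ ∑ b, (if b = b0 then (1 : ℝ) else 0) := by
              apply Finset.sum_le_sum
              intro b _
              unfold wt
              rw [if_neg (not_lt.mpr hk), hS]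
              split_ifs with h1 h2 h2
              · exact le_refl _
              · exfalso
                obtain ⟨b', _, hb'⟩ := Finset.mem_image.mp h1
                simp only [Prod.mk.injEq] at hb'
                obtain ⟨h3, rfl⟩ := hb'
                exact h2 (hgr2 _ (h3.trans hb0.symm))
              · exact zero_le_one
              · exact le_refl _
          _ = 1 := by simp
      · have : ∑ b, wt j B k c a b = 0 := by
          apply Finset.sum_eq_zero
          intro b _
          unfold wt
          rw [hS, if_neg]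
          intro h1
          obtain ⟨b', _, hb'⟩ := Finset.mem_image.mp h1
          simp only [Prod.mk.injEq] at hb'
          exact hex ⟨b', hb'.1⟩
        rw [this]
        exact zero_le_one

/-- the ideal value -/
theorem adm_top [Nonempty U] {gr : U → U → U} {Ind : U → Finset U → Prop} {κ : ℕ}
    {r : Fin J → (Fin J → U × E) → U} {B : Fin J → (Fin J → U × E) → Finset (U × U)}
    (hB : Adm gr Ind κ J r B) (d : U × E) {β : ℝ} (hβ : 0 ≤ β)
    (hκβ : (κ : ℝ) ≤ β ^ 2 * Fintype.card U) :
    ∑ z, fw d (wt J B) (List.finRange J) (fun _ => 1) z ≤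
      β ^ J * Fintype.card (Fin J → U × E) := by
  have hU : (0 : ℝ) < Fintype.card U := by exact_mod_cast Fintype.card_pos
  have h := fw_total (d := d) (w := wt J B) (List.finRange J) hβ ?_
  · rw [List.length_finRange] at h
    exact h
  · intro k _ c
    have h1 := (hB k c).1 k.isLt
    have h2 : ∑ b, ∑ a, wt J B k c a b ^ 2 = (B k c).card * ((Fintype.card U : ℝ)⁻¹) ^ 2 := by
      rw [← Fintype.sum_prod_type_right (f := fun p : U × U => wt J B k c p.1 p.2 ^ 2)]
      unfold wt
      simp only [if_pos k.isLt]
      have : ∀ p : U × U, (if (p.1, p.2) ∈ B k c then (Fintype.card U : ℝ)⁻¹ else 0) ^ 2 =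
          if p ∈ B k c then ((Fintype.card U : ℝ)⁻¹) ^ 2 else 0 := by
        intro p
        split_ifs <;> simp
      simp only [this]
      rw [Finset.sum_ite_mem, Finset.univ_inter, sum_const, nsmul_eq_mul]
    rw [h2]
    have h3 : ((B k c).card : ℝ) ≤ κ * Fintype.card U := by exact_mod_cast h1
    calc ((B k c).card : ℝ) * ((Fintype.card U : ℝ)⁻¹) ^ 2
        ≤ (β ^ 2 * Fintype.card U * Fintype.card U) * ((Fintype.card U : ℝ)⁻¹) ^ 2 := by
          gcongr
          exact h3.trans (by gcongr)
      _ = β ^ 2 := by field_simp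

/-- the number of contexts seen by the other digits when the hidden part of the digit `K` is
fixed -/
theorem card_idx (K : Fin J) (d : U × E) :
    Fintype.card {p : Fin J × (Fin J → U × E) // p.1 ≠ K ∧ p.2 p.1 = d ∧ (p.2 K).2 = d.2} *
      (Fintype.card U * Fintype.card E * Fintype.card E) ≤ J * Fintype.card (Fin J → U × E) := by
  have h : Fintype.card ({p : Fin J × (Fin J → U × E) // p.1 ≠ K ∧ p.2 p.1 = d ∧
      (p.2 K).2 = d.2} × ((U × E) × E)) ≤ Fintype.card (Fin J × (Fin J → U × E)) := by
    apply Fintype.card_le_of_injective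
      (fun q => (q.1.1.1, update (update q.1.1.2 K ((q.1.1.2 K).1, q.2.2)) q.1.1.1 q.2.1))
    rintro ⟨⟨⟨k, z⟩, h1, h2, h3⟩, v, e⟩ ⟨⟨⟨k', z'⟩, h1', h2', h3'⟩, v', e'⟩ h
    simp only [Prod.mk.injEq] at h
    obtain ⟨rfl, h⟩ := h
    simp only at h1 h2 h3 h1' h2' h3' h
    have e1 : v = v' := by
      have := congrFun h k
      simpa using this
    have e2 : e = e' ∧ (z K).1 = (z' K).1 := by
      have := congrFun h K
      rw [update_of_ne (Ne.symm h1), update_of_ne (Ne.symm h1), update_self, update_self] at this
      simp only [Prod.mk.injEq] at this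
      exact ⟨this.2, this.1⟩
    have e3 : z = z' := by
      funext i
      by_cases hiK : i = K
      · subst hiK
        exact Prod.ext e2.2 (h3.trans h3'.symm)
      · by_cases hik : i = k
        · subst hik
          exact h2.trans h2'.symm
        · have := congrFun h i
          rwa [update_of_ne hik, update_of_ne hik, update_of_ne hiK, update_of_ne hiK] at this
    subst e1
    subst e3
    rw [e2.1]
  rw [Fintype.card_prod, Fintype.card_prod, Fintype.card_prod, Fintype.card_prod,
    Fintype.card_fin] at h
  linarith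

/-- Choice of the shifts of one digit. -/
theorem step_digit [Nonempty U] [Nonempty E] {gr : U → U → U} {Ind : U → Finset U → Prop} {κ : ℕ}
    (hgr : ∀ b, Injective (fun r => gr r b)) (hgr2 : ∀ r, Injective (gr r))
    (hI : ∀ r, Ind r ∅) (hκ : ∀ r S, Ind r S → S.card ≤ κ) (d : U × E)
    (m : ℕ) (hm : 0 < m) (η : ℝ) (hη : 0 < η) (hη1 : η ≤ 1) (hmη : 1 ≤ 4 * m * η ^ 2)
    (K : Fin J)
    (hcard : ((Fintype.card E : ℝ) * (2 : ℝ) ^ (Fintype.card U ^ 2 *
      Fintype.card {p : Fin J × (Fin J → U × E) // p.1 ≠ K ∧ p.2 p.1 = d ∧ (p.2 K).2 = d.2})) ^ m *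
      Real.exp (-(η ^ 2 * Fintype.card {c : Fin J → U × E // c K = d} / 4)) < 1)
    (r : Fin J → (Fin J → U × E) → U) (τ : ℝ)
    (hT : ∀ B, Adm gr Ind κ (K + 1) r B → ∑ z, fw d (wt (K + 1) B) (List.finRange J) (fun _ => 1) z ≤
      τ * Fintype.card (Fin J → U × E)) :
    ∃ r' : Fin J → (Fin J → U × E) → U, ∀ B, Adm gr Ind κ K r' B →
      ∑ z, fw d (wt K B) (List.finRange J) (fun _ => 1) z ≤
        (τ + 2 * η) * Fintype.card (Fin J → U × E) := by
  classical
  have hU : (0 : ℝ) < Fintype.card U := by exact_mod_cast Fintype.card_pos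
  have hE : (0 : ℝ) < Fintype.card E := by exact_mod_cast Fintype.card_pos
  obtain ⟨l, l', hl⟩ := List.append_of_mem (List.mem_finRange K)
  have hnd : (l ++ K :: l').Nodup := hl ▸ List.nodup_finRange J
  have hKl : K ∉ l := by
    intro h
    have := List.nodup_append.mp hnd
    exact this.2.2 K h K (by simp) rfl
  have hKl' : K ∉ l' := by
    have := (List.nodup_append.mp hnd).2.1
    exact (List.nodup_cons.mp this).1
  rw [hl] at hT ⊢
  -- the index type of the data
  let I := {p : Fin J × (Fin J → U × E) // p.1 ≠ K ∧ p.2 p.1 = d ∧ (p.2 K).2 = d.2}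
  let C := {c : Fin J → U × E // c K = d}
  let Bd : (I → Finset (U × U)) → Fin J → (Fin J → U × E) → Finset (U × U) := fun dat k c =>
    if h : k ≠ K ∧ update c K ((c K).1, d.2) k = d ∧ (update c K ((c K).1, d.2) K).2 = d.2 then
      dat ⟨(k, update c K ((c K).1, d.2)), h⟩ else ∅
  let F : E → (I → Finset (U × U)) → C → U → U → ℝ := fun e dat c a b =>
    max 0 (min 1 (bw d (wt K (Bd dat)) l (fun _ => 1) (update c.1 K (b, e)) *
      fw d (wt K (Bd dat)) l' (fun _ => 1) (update c.1 K (a, e))))
  have hF0 : ∀ e i c a b, 0 ≤ F e i c a b := fun e i c a b => le_max_left _ _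
  have hF1 : ∀ e i c a b, F e i c a b ≤ 1 := fun e i c a b =>
    max_le zero_le_one (min_le_left _ _)
  have : Nonempty C := ⟨⟨fun _ => d, rfl⟩⟩
  have hcι : (Fintype.card (I → Finset (U × U)) : ℝ) = (2 : ℝ) ^ (Fintype.card U ^ 2 *
      Fintype.card {p : Fin J × (Fin J → U × E) // p.1 ≠ K ∧ p.2 p.1 = d ∧ (p.2 K).2 = d.2}) := by
    rw [Fintype.card_fun, Fintype.card_finset, Fintype.card_prod, ← pow_mul, sq]
    push_cast
    rfl
  obtain ⟨ρ, hρ⟩ := oneDigit (C := C) gr hgr Ind hI κ hκ F hF0 hF1 m hm η hη hη1 hmη
    (by rw [hcι]; exact hcard)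
  refine ⟨update r K (fun c => if hc : c K = d then ρ ⟨c, hc⟩ else r K c), fun B hB => ?_⟩
  have hsub := adm_sub hgr2 hB
  -- the data of the family
  let i : E → I → Finset (U × U) := fun e p => B p.1.1 (update p.1.2 K ((p.1.2 K).1, e))
  have hloc : ∀ e (k : Fin J), k ≠ K → ∀ c : Fin J → U × E, c k = d → (c K).2 = e →
      wt K (Bd (i e)) k c = wt K B k c := by
    intro e k hk c hc hce
    have hB' : Bd (i e) k c = B k c := by
      have hcond : k ≠ K ∧ update c K ((c K).1, d.2) k = d ∧
          (update c K ((c K).1, d.2) K).2 = d.2 :=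
        ⟨hk, by rw [update_of_ne hk]; exact hc, by rw [update_self]⟩
      simp only [Bd]
      rw [dif_pos hcond]
      simp only [i, update_self, update_idem]
      rw [← hce]
      have : ((c K).1, (c K).2) = c K := rfl
      rw [this, update_eq_self]
    funext a b
    unfold wt
    rw [hB']
  have hFval : ∀ e (c : C) a b, F e (i e) c a b =
      bw d (wt K B) l (fun _ => 1) (update c.1 K (b, e)) *
      fw d (wt K B) l' (fun _ => 1) (update c.1 K (a, e)) := by
    intro e c a b
    have h1 : bw d (wt K (Bd (i e))) l (fun _ => 1) (update c.1 K (b, e)) =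
        bw d (wt K B) l (fun _ => 1) (update c.1 K (b, e)) := by
      apply bw_local hKl (e := e)
      · intro k hk c hc hce
        exact hloc e k (fun h => hKl (h ▸ hk)) c hc hce
      · intro z _; rfl
      · simp
    have h2 : fw d (wt K (Bd (i e))) l' (fun _ => 1) (update c.1 K (a, e)) =
        fw d (wt K B) l' (fun _ => 1) (update c.1 K (a, e)) := by
      apply fw_local hKl' (e := e)
      · intro k hk c hc hce
        exact hloc e k (fun h => hKl' (h ▸ hk)) c hc hce
      · simp
    simp only [F]
    rw [h1, h2]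
    have h3 := bw_mem (d := d) (l := l) (fun k _ => hsub k) (f := fun _ => (1 : ℝ))
      (fun _ => zero_le_one) (fun _ => le_refl _) (update c.1 K (b, e))
    have h4 := fw_nonneg (d := d) (l := l') (fun k _ => hsub k) (h := fun _ => (1 : ℝ))
      (fun _ => zero_le_one) (update c.1 K (a, e))
    have h5 := fw_le_one (d := d) (l := l') (fun k _ => hsub k) (h := fun _ => (1 : ℝ))
      (fun _ => le_refl _) (update c.1 K (a, e))
    rw [min_eq_right, max_eq_right]
    · exact mul_nonneg h3.1 h4
    · exact mul_le_one₀ h3.2 h4 h5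
  -- the independent sets at the digit `K`
  have hSex : ∀ c : C, ∃ S, Ind (ρ c) S ∧ B K c.1 = S.image (fun b => (gr (ρ c) b, b)) := by
    intro c
    obtain ⟨S, hS1, hS2⟩ := (hB K c.1).2 (le_refl _)
    rw [update_self, dif_pos c.2] at hS1 hS2
    exact ⟨S, hS1, hS2⟩
  choose S hS1 hS2 using hSex
  obtain ⟨A, hA1, hA2⟩ := hρ i S hS1
  -- the modified family
  set B' : Fin J → (Fin J → U × E) → Finset (U × U) :=
    update B K (fun c => if hc : c K = d then A ⟨c, hc⟩ else ∅) with hB'
  have hAdm' : Adm gr Ind κ (K + 1) r B' := by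
    intro k c
    by_cases hk : k = K
    · subst hk
      refine ⟨fun _ => ?_, fun h => by omega⟩
      rw [hB', update_self]
      split_ifs with hc
      · exact hA1 _
      · simp
    · have hkK : (k : ℕ) ≠ K := fun h => hk (Fin.ext h)
      rw [hB', update_of_ne hk]
      refine ⟨fun h => (hB k c).1 (by omega), fun h => ?_⟩
      obtain ⟨S', hS1', hS2'⟩ := (hB k c).2 (by omega)
      rw [update_of_ne hk] at hS1' hS2'
      exact ⟨S', hS1', hS2'⟩
  have hT' := hT B' hAdm'
  have hcl : Fintype.card C * (Fintype.card U * Fintype.card E) =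
      Fintype.card (Fin J → U × E) := card_ctx K d
  have hclR : (Fintype.card (Fin J → U × E) : ℝ) =
      Fintype.card C * Fintype.card E * Fintype.card U := by
    rw [← hcl]; push_cast; ring
  have hC : (0 : ℝ) < Fintype.card C := by exact_mod_cast Fintype.card_pos
  -- the value of the real digit
  have hreal : ∑ z, fw d (wt K B) (l ++ K :: l') (fun _ => 1) z =
      ∑ c, ∑ e, ∑ b ∈ S c, F e (i e) c (gr (ρ c) b) b := by
    rw [mass]
    apply Finset.sum_congr rfl
    intro c _
    apply Finset.sum_congr rfl
    intro e _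
    have h1 : ∀ p : U × U, wt K B K c.1 p.1 p.2 *
        (bw d (wt K B) l (fun _ => 1) (update c.1 K (p.2, e)) *
          fw d (wt K B) l' (fun _ => 1) (update c.1 K (p.1, e))) =
        if p ∈ (S c).image (fun b => (gr (ρ c) b, b)) then F e (i e) c p.1 p.2 else 0 := by
      intro p
      rw [hFval]
      unfold wt
      rw [hS2 c, if_neg (lt_irrefl (K : ℕ))]
      split_ifs
      · rw [one_mul]
      · rw [zero_mul]
    rw [Finset.sum_congr rfl (fun p _ => h1 p), Finset.sum_ite_mem, Finset.univ_inter,
      Finset.sum_image]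
    intro b _ b' _ h
    simp only [Prod.mk.injEq] at h
    exact h.2
  have hideal : ∑ z, fw d (wt (K + 1) B') (l ++ K :: l') (fun _ => 1) z =
      (∑ c, ∑ e, ∑ p ∈ A c, F e (i e) c p.1 p.2) / Fintype.card U := by
    rw [mass, Finset.sum_div]
    apply Finset.sum_congr rfl
    intro c _
    rw [Finset.sum_div]
    apply Finset.sum_congr rfl
    intro e _
    have hother : ∀ k : Fin J, k ≠ K → ∀ c, wt (K + 1) B' k c = wt K B k c := by
      intro k hk c
      have hkK : (k : ℕ) ≠ K := fun h => hk (Fin.ext h)
      funext a b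
      unfold wt
      rw [hB', update_of_ne hk]
      have : ((k : ℕ) < K + 1) ↔ ((k : ℕ) < K) := by omega
      simp only [this]
    have h2 : ∀ b, bw d (wt (K + 1) B') l (fun _ => 1) (update c.1 K (b, e)) =
        bw d (wt K B) l (fun _ => 1) (update c.1 K (b, e)) := by
      intro b
      apply bw_local hKl (e := e)
      · intro k hk c _ _
        exact hother k (fun h => hKl (h ▸ hk)) c
      · intro z _; rfl
      · simp
    have h3 : ∀ a, fw d (wt (K + 1) B') l' (fun _ => 1) (update c.1 K (a, e)) =
        fw d (wt K B) l' (fun _ => 1) (update c.1 K (a, e)) := by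
      intro a
      apply fw_local hKl' (e := e)
      · intro k hk c _ _
        exact hother k (fun h => hKl' (h ▸ hk)) c
      · simp
    have h1 : ∀ p : U × U, wt (K + 1) B' K c.1 p.1 p.2 *
        (bw d (wt (K + 1) B') l (fun _ => 1) (update c.1 K (p.2, e)) *
          fw d (wt (K + 1) B') l' (fun _ => 1) (update c.1 K (p.1, e))) =
        if p ∈ A c then F e (i e) c p.1 p.2 * (Fintype.card U : ℝ)⁻¹ else 0 := by
      intro p
      rw [hFval, h2, h3]
      unfold wt
      rw [hB', update_self, dif_pos c.2, if_pos (Nat.lt_succ_self _)]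
      split_ifs
      · rw [mul_comm]
      · rw [zero_mul]
    rw [Finset.sum_congr rfl (fun p _ => h1 p), Finset.sum_ite_mem, Finset.univ_inter,
      ← Finset.sum_mul, div_eq_mul_inv]
  rw [hideal] at hT'
  rw [hreal]
  rw [div_le_iff₀ (by positivity)] at hA2
  rw [div_le_iff₀ hU] at hT'
  rw [hclR] at hT' ⊢
  refine hA2.trans ?_
  rw [add_mul, add_mul]
  gcongr
  rw [div_le_iff₀ (by positivity)]
  calc (∑ c, ∑ e, ∑ p ∈ A c, F e (i e) c p.1 p.2)
      ≤ τ * (Fintype.card C * Fintype.card E * Fintype.card U) * Fintype.card U := hT'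
    _ = _ := by ring

end Hybrid

end Pool.Agent.Helper55.RD
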