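import Pool.Agent.Helper55.RD.Hoeff

/-!
Replacement of one digit: a uniform law of large numbers. The shifts `ρ c` of the contexts `c` can be
chosen such that for all functions of a given family the best value over independent sets of the
shifted permutations is at most the best value over arbitrary sets of pairs of the same density, up
to a small error.
-/

namespace Pool.Agent.Helper55.RD

open Finset

set_option linter.unusedSectionVars false

section VW

variable {U : Type*} [Fintype U] [DecidableEq U]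

/-- the largest value of `g` over the independent sets of the permutation `gr r` -/
noncomputable def V (gr : U → U → U) (Ind : U → Finset U → Prop) (r : U) (g : U → U → ℝ) : ℝ :=
  (⨆ S : {S : Finset U // Ind r S}, ∑ b ∈ S.1, g (gr r b) b) / Fintype.card U

/-- the largest value of `g` over the sets of at most `κ * |U|` pairs -/
noncomputable def W (κ : ℕ) (g : U → U → ℝ) : ℝ :=
  (⨆ A : {A : Finset (U × U) // A.card ≤ κ * Fintype.card U}, ∑ p ∈ A.1, g p.1 p.2) /
    (Fintype.card U : ℝ) ^ 2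

variable {gr : U → U → U} {Ind : U → Finset U → Prop} {κ : ℕ}

theorem le_V {r : U} (g : U → U → ℝ) {S : Finset U} (hS : Ind r S) :
    (∑ b ∈ S, g (gr r b) b) / Fintype.card U ≤ V gr Ind r g := by
  unfold V
  have h := le_ciSup (f := fun S : {S : Finset U // Ind r S} => ∑ b ∈ S.1, g (gr r b) b)
    (Set.finite_range _).bddAbove ⟨S, hS⟩
  gcongr

theorem exists_V (hI : ∀ r, Ind r ∅) (r : U) (g : U → U → ℝ) :
    ∃ S, Ind r S ∧ V gr Ind r g = (∑ b ∈ S, g (gr r b) b) / Fintype.card U := by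
  have : Nonempty {S : Finset U // Ind r S} := ⟨⟨∅, hI r⟩⟩
  obtain ⟨S, hS⟩ := exists_eq_ciSup_of_finite
    (f := fun S : {S : Finset U // Ind r S} => ∑ b ∈ S.1, g (gr r b) b)
  exact ⟨S.1, S.2, by unfold V; rw [← hS]⟩

theorem le_W (g : U → U → ℝ) {A : Finset (U × U)} (hA : A.card ≤ κ * Fintype.card U) :
    (∑ p ∈ A, g p.1 p.2) / (Fintype.card U : ℝ) ^ 2 ≤ W κ g := by
  unfold W
  have h := le_ciSup (f := fun A : {A : Finset (U × U) // A.card ≤ κ * Fintype.card U} =>
    ∑ p ∈ A.1, g p.1 p.2) (Set.finite_range _).bddAbove ⟨A, hA⟩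
  gcongr

theorem exists_W (κ : ℕ) (g : U → U → ℝ) :
    ∃ A : Finset (U × U), A.card ≤ κ * Fintype.card U ∧
      W κ g = (∑ p ∈ A, g p.1 p.2) / (Fintype.card U : ℝ) ^ 2 := by
  have : Nonempty {A : Finset (U × U) // A.card ≤ κ * Fintype.card U} := ⟨⟨∅, by simp⟩⟩
  obtain ⟨A, hA⟩ := exists_eq_ciSup_of_finite
    (f := fun A : {A : Finset (U × U) // A.card ≤ κ * Fintype.card U} => ∑ p ∈ A.1, g p.1 p.2)
  exact ⟨A.1, A.2, by unfold W; rw [← hA]⟩

theorem V_nonneg (hI : ∀ r, Ind r ∅) (r : U) {g : U → U → ℝ} (h0 : ∀ a b, 0 ≤ g a b) :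
    0 ≤ V gr Ind r g := by
  obtain ⟨S, -, hS⟩ := exists_V hI (gr := gr) r g
  rw [hS]
  exact div_nonneg (Finset.sum_nonneg (fun b _ => h0 _ _)) (Nat.cast_nonneg _)

theorem V_le_one (hI : ∀ r, Ind r ∅) (r : U) {g : U → U → ℝ} (h1 : ∀ a b, g a b ≤ 1) :
    V gr Ind r g ≤ 1 := by
  obtain ⟨S, -, hS⟩ := exists_V hI (gr := gr) r g
  rw [hS]
  apply div_le_one_of_le₀ _ (Nat.cast_nonneg _)
  calc ∑ b ∈ S, g (gr r b) b ≤ ∑ _b ∈ S, (1 : ℝ) := Finset.sum_le_sum (fun b _ => h1 _ _)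
    _ = S.card := by simp
    _ ≤ Fintype.card U := by exact_mod_cast Finset.card_le_univ S

theorem W_nonneg {g : U → U → ℝ} (h0 : ∀ a b, 0 ≤ g a b) : 0 ≤ W κ g := by
  obtain ⟨A, -, hA⟩ := exists_W κ g
  rw [hA]
  exact div_nonneg (Finset.sum_nonneg (fun b _ => h0 _ _)) (by positivity)

theorem W_le_one {g : U → U → ℝ} (h1 : ∀ a b, g a b ≤ 1) : W κ g ≤ 1 := by
  obtain ⟨A, -, hA⟩ := exists_W κ g
  rw [hA]
  apply div_le_one_of_le₀ _ (by positivity)
  calc ∑ p ∈ A, g p.1 p.2 ≤ ∑ _p ∈ A, (1 : ℝ) := Finset.sum_le_sum (fun b _ => h1 _ _)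
    _ = A.card := by simp
    _ ≤ (Fintype.card U : ℝ) ^ 2 := by
        have := Finset.card_le_univ A
        rw [Fintype.card_prod] at this
        rw [sq]
        exact_mod_cast this

/-- The mean over the shifts of the best value over independent sets is at most the best value over
sets of pairs. -/
theorem sum_V_le (hI : ∀ r, Ind r ∅) (hgr : ∀ b, Function.Injective (fun r => gr r b))
    (hκ : ∀ r S, Ind r S → S.card ≤ κ) (g : U → U → ℝ) :
    ∑ r, V gr Ind r g ≤ Fintype.card U * W κ g := by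
  rcases isEmpty_or_nonempty U with hU | hU
  · simp
  choose S hS1 hS2 using fun r => exists_V hI (gr := gr) r g
  have hn0 : (0 : ℝ) < Fintype.card U := by exact_mod_cast Fintype.card_pos
  set D : Finset ((_ : U) × U) := univ.sigma S with hD
  have hinj : Set.InjOn (fun x : (_ : U) × U => (gr x.1 x.2, x.2)) D := by
    rintro ⟨r, b⟩ - ⟨r', b'⟩ - h
    simp only [Prod.mk.injEq] at h
    obtain ⟨h1, rfl⟩ := h
    have := hgr b h1
    subst this
    rfl
  set A : Finset (U × U) := D.image (fun x => (gr x.1 x.2, x.2)) with hA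
  have hAc : A.card ≤ κ * Fintype.card U := by
    rw [hA, Finset.card_image_of_injOn hinj, hD, Finset.card_sigma]
    calc ∑ r, (S r).card ≤ ∑ _r : U, κ := Finset.sum_le_sum (fun r _ => hκ r _ (hS1 r))
      _ = κ * Fintype.card U := by simp [mul_comm]
  have h1 := le_W g hAc
  have h2 : ∑ p ∈ A, g p.1 p.2 = ∑ r, ∑ b ∈ S r, g (gr r b) b := by
    rw [hA, Finset.sum_image hinj, hD, Finset.sum_sigma]
  simp only [hS2]
  rw [← Finset.sum_div, ← h2]
  rw [div_le_iff₀ (by positivity)] at h1 ⊢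
  calc ∑ p ∈ A, g p.1 p.2 ≤ W κ g * (Fintype.card U : ℝ) ^ 2 := h1
    _ = _ := by ring

theorem V_avg (hI : ∀ r, Ind r ∅) {I : Type*} [Fintype I] (g : I → U → U → ℝ) {N : ℝ} (hN : 0 ≤ N)
    (r : U) : V gr Ind r (fun a b => (∑ s, g s a b) / N) ≤ (∑ s, V gr Ind r (g s)) / N := by
  obtain ⟨S, hS, e⟩ := exists_V hI (gr := gr) r (fun a b => (∑ s, g s a b) / N)
  rw [e]
  have h1 : ∑ s, (∑ b ∈ S, g s (gr r b) b) / Fintype.card U ≤ ∑ s, V gr Ind r (g s) :=
    Finset.sum_le_sum (fun s _ => le_V (g s) hS)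
  have h2 : (∑ b ∈ S, (∑ s, g s (gr r b) b) / N) / Fintype.card U =
      (∑ s, (∑ b ∈ S, g s (gr r b) b) / Fintype.card U) / N := by
    rw [← Finset.sum_div, ← Finset.sum_div, Finset.sum_comm]
    rw [div_right_comm]
  rw [h2]
  gcongr

theorem W_lip (g g' : U → U → ℝ) :
    W κ g ≤ W κ g' + (∑ p : U × U, |g p.1 p.2 - g' p.1 p.2|) / (Fintype.card U : ℝ) ^ 2 := by
  obtain ⟨A, hA, e⟩ := exists_W κ g
  rw [e]
  have h1 := le_W g' hA
  have h2 : ∑ p ∈ A, g p.1 p.2 ≤ ∑ p ∈ A, g' p.1 p.2 + ∑ p : U × U, |g p.1 p.2 - g' p.1 p.2| := by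
    have h3 : ∑ p ∈ A, g p.1 p.2 - ∑ p ∈ A, g' p.1 p.2 ≤ ∑ p ∈ A, |g p.1 p.2 - g' p.1 p.2| := by
      rw [← Finset.sum_sub_distrib]
      exact Finset.sum_le_sum (fun p _ => le_abs_self _)
    have h4 : ∑ p ∈ A, |g p.1 p.2 - g' p.1 p.2| ≤ ∑ p : U × U, |g p.1 p.2 - g' p.1 p.2| :=
      Finset.sum_le_sum_of_subset_of_nonneg (Finset.subset_univ _) (fun _ _ _ => abs_nonneg _)
    linarith
  calc (∑ p ∈ A, g p.1 p.2) / (Fintype.card U : ℝ) ^ 2
      ≤ (∑ p ∈ A, g' p.1 p.2 + ∑ p : U × U, |g p.1 p.2 - g' p.1 p.2|) /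
        (Fintype.card U : ℝ) ^ 2 := by gcongr
    _ = (∑ p ∈ A, g' p.1 p.2) / (Fintype.card U : ℝ) ^ 2 +
        (∑ p : U × U, |g p.1 p.2 - g' p.1 p.2|) / (Fintype.card U : ℝ) ^ 2 := add_div _ _ _
    _ ≤ _ := by gcongr

end VW

theorem sample_mean {E : Type*} [Fintype E] (X : E → ℝ) (m : ℕ) :
    (∑ s : Fin m → E, ∑ l, X (s l)) * Fintype.card E = m * (Fintype.card E : ℝ) ^ m * ∑ e, X e := by
  induction m with
  | zero => simp
  | succ m ih =>
    have e1 : ∑ s : Fin (m + 1) → E, ∑ l, X (s l) =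
        ∑ p : E × (Fin m → E), (X p.1 + ∑ l, X (p.2 l)) := by
      rw [← (Fin.consEquiv (fun _ : Fin (m + 1) => E)).sum_comp]
      apply Finset.sum_congr rfl
      intro p _
      rw [Fin.sum_univ_succ]
      rfl
    rw [e1, Fintype.sum_prod_type]
    simp only [Finset.sum_add_distrib]
    simp only [sum_const, card_univ, Fintype.card_fun, Fintype.card_fin, nsmul_eq_mul]
    rw [← Finset.mul_sum, add_mul, mul_assoc (Fintype.card E : ℝ), ih]
    push_cast
    ring

/-- Replacement of one digit. -/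
theorem oneDigit {C E ι U : Type*} [Fintype C] [DecidableEq C] [Nonempty C] [Fintype E] [Nonempty E]
    [Fintype ι] [Fintype U] [DecidableEq U] [Nonempty U]
    (gr : U → U → U) (hgr : ∀ b, Function.Injective (fun r => gr r b))
    (Ind : U → Finset U → Prop) (hI : ∀ r, Ind r ∅) (κ : ℕ) (hκ : ∀ r S, Ind r S → S.card ≤ κ)
    (F : E → ι → C → U → U → ℝ) (hF0 : ∀ e i c a b, 0 ≤ F e i c a b)
    (hF1 : ∀ e i c a b, F e i c a b ≤ 1)
    (m : ℕ) (hm : 0 < m) (η : ℝ) (hη : 0 < η) (hη1 : η ≤ 1) (hmη : 1 ≤ 4 * m * η ^ 2)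
    (hcard : ((Fintype.card E : ℝ) * Fintype.card ι) ^ m *
      Real.exp (-(η ^ 2 * Fintype.card C / 4)) < 1) :
    ∃ ρ : C → U, ∀ (i : E → ι) (S : C → Finset U), (∀ c, Ind (ρ c) (S c)) →
      ∃ A : C → Finset (U × U), (∀ c, (A c).card ≤ κ * Fintype.card U) ∧
        (∑ c, ∑ e, ∑ b ∈ S c, F e (i e) c (gr (ρ c) b) b) /
          (Fintype.card C * Fintype.card E * Fintype.card U) ≤
        (∑ c, ∑ e, ∑ p ∈ A c, F e (i e) c p.1 p.2) /
          (Fintype.card C * Fintype.card E * (Fintype.card U : ℝ) ^ 2) + 2 * η := by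
  classical
  set nU : ℝ := (Fintype.card U : ℝ) with hnU
  set nE : ℝ := (Fintype.card E : ℝ) with hnE
  set nC : ℝ := (Fintype.card C : ℝ) with hnC
  have hU0 : 0 < nU := by rw [hnU]; exact_mod_cast Fintype.card_pos
  have hE0 : 0 < nE := by rw [hnE]; exact_mod_cast Fintype.card_pos
  have hC0 : 0 < nC := by rw [hnC]; exact_mod_cast Fintype.card_pos
  have hm0 : (0 : ℝ) < m := by exact_mod_cast hm
  -- sample functions
  set g : (Fin m → E × ι) → C → U → U → ℝ :=
    fun σ c a b => (∑ l, F (σ l).1 (σ l).2 c a b) / m with hg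
  have hg0 : ∀ σ c a b, 0 ≤ g σ c a b := fun σ c a b =>
    div_nonneg (Finset.sum_nonneg (fun l _ => hF0 _ _ _ _ _)) hm0.le
  have hg1 : ∀ σ c a b, g σ c a b ≤ 1 := by
    intro σ c a b
    apply div_le_one_of_le₀ _ hm0.le
    calc ∑ l, F (σ l).1 (σ l).2 c a b ≤ ∑ _l : Fin m, (1 : ℝ) :=
          Finset.sum_le_sum (fun l _ => hF1 _ _ _ _ _)
      _ = m := by simp
  set bad : (Fin m → E × ι) → Finset (C → U) := fun σ =>
    univ.filter (fun ρ => ∑ c, W κ (g σ c) + η * nC < ∑ c, V gr Ind (ρ c) (g σ c)) with hbad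
  have hbadc : ∀ σ, ((bad σ).card : ℝ) ≤ Real.exp (-(η ^ 2 * nC / 4)) * nU ^ Fintype.card C := by
    intro σ
    apply chernoff (fun c r => V gr Ind r (g σ c)) (fun c => W κ (g σ c))
      (fun c r => V_nonneg hI r (hg0 σ c)) (fun c r => V_le_one hI r (hg1 σ c))
      (fun c => W_nonneg (hg0 σ c)) (fun c => W_le_one (hg1 σ c))
      (fun c => sum_V_le hI hgr hκ _) η hη hη1
    intro ρ hρ
    exact (Finset.mem_filter.mp hρ).2
  obtain ⟨ρ, hρ⟩ : ∃ ρ : C → U, ∀ σ, ρ ∉ bad σ := by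
    by_contra hcon
    push Not at hcon
    have h1 : (univ : Finset (C → U)) ⊆ univ.biUnion bad := by
      intro ρ _
      obtain ⟨σ, hσ⟩ := hcon ρ
      exact Finset.mem_biUnion.mpr ⟨σ, Finset.mem_univ _, hσ⟩
    have h2 : ((Fintype.card (C → U) : ℕ) : ℝ) ≤ ∑ σ, ((bad σ).card : ℝ) := by
      have := (Finset.card_le_card h1).trans Finset.card_biUnion_le
      rw [card_univ] at this
      exact_mod_cast this
    have h3 : ∑ σ, ((bad σ).card : ℝ) ≤ (nE * Fintype.card ι) ^ m *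
        (Real.exp (-(η ^ 2 * nC / 4)) * nU ^ Fintype.card C) := by
      calc ∑ σ, ((bad σ).card : ℝ) ≤ ∑ _σ : Fin m → E × ι,
          (Real.exp (-(η ^ 2 * nC / 4)) * nU ^ Fintype.card C) :=
            Finset.sum_le_sum (fun σ _ => hbadc σ)
        _ = _ := by
            rw [Finset.sum_const, card_univ, nsmul_eq_mul, Fintype.card_fun, Fintype.card_prod,
              Fintype.card_fin]
            push_cast
            rfl
    have h4 : ((Fintype.card (C → U) : ℕ) : ℝ) = nU ^ Fintype.card C := by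
      rw [Fintype.card_fun]; push_cast; rfl
    rw [h4] at h2
    have h5 : 0 < nU ^ Fintype.card C := by positivity
    have h6 := h2.trans h3
    rw [← mul_assoc] at h6
    have h7 : (nE * Fintype.card ι) ^ m * Real.exp (-(η ^ 2 * nC / 4)) * nU ^ Fintype.card C <
        1 * nU ^ Fintype.card C := by gcongr
    rw [one_mul] at h7
    exact absurd (h6.trans_lt h7) (lt_irrefl _)
  refine ⟨ρ, fun i S hS => ?_⟩
  -- the averaged function
  set G : C → U → U → ℝ := fun c a b => (∑ e, F e (i e) c a b) / nE with hG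
  choose A hA1 hA2 using fun c => exists_W κ (G c)
  refine ⟨A, hA1, ?_⟩
  set gs : (Fin m → E) → C → U → U → ℝ := fun s => g (fun l => (s l, i (s l))) with hgs
  have hmean : ∀ c a b, G c a b = (∑ s, gs s c a b) / nE ^ m := by
    intro c a b
    have h := sample_mean (fun e => F e (i e) c a b) m
    simp only [hG, hgs, hg]
    rw [← Finset.sum_div, div_div, div_eq_div_iff hE0.ne' (by positivity)]
    rw [h]
    ring
  have step1 : ∑ c, V gr Ind (ρ c) (G c) ≤ (∑ s, ∑ c, V gr Ind (ρ c) (gs s c)) / nE ^ m := by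
    rw [Finset.sum_comm, Finset.sum_div]
    apply Finset.sum_le_sum
    intro c _
    have h := V_avg hI (gr := gr) (fun s => gs s c) (N := nE ^ m) (by positivity) (ρ c)
    have e : G c = fun a b => (∑ s, gs s c a b) / nE ^ m := by
      funext a b; exact hmean c a b
    rw [e]
    exact h
  have step2 : ∀ s, ∑ c, V gr Ind (ρ c) (gs s c) ≤ ∑ c, W κ (gs s c) + η * nC := by
    intro s
    have h := hρ (fun l => (s l, i (s l)))
    simp only [hbad, Finset.mem_filter, Finset.mem_univ, true_and, not_lt] at h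
    exact h
  have step3 : ∀ s c, W κ (gs s c) ≤ W κ (G c) +
      (∑ p : U × U, |gs s c p.1 p.2 - G c p.1 p.2|) / nU ^ 2 := fun s c => W_lip _ _
  have step4 : ∀ c (p : U × U), ∑ s, |gs s c p.1 p.2 - G c p.1 p.2| ≤ nE ^ m * η := by
    intro c p
    exact sample_abs (fun e => F e (i e) c p.1 p.2) (fun e => hF0 _ _ _ _ _)
      (fun e => hF1 _ _ _ _ _) m hm η hη hmη
  have step5 : ∑ c, V gr Ind (ρ c) (G c) ≤ ∑ c, W κ (G c) + 2 * η * nC := by
    refine step1.trans ?_
    rw [div_le_iff₀ (by positivity)]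
    calc ∑ s, ∑ c, V gr Ind (ρ c) (gs s c) ≤ ∑ s, (∑ c, W κ (gs s c) + η * nC) :=
          Finset.sum_le_sum (fun s _ => step2 s)
      _ ≤ ∑ s : Fin m → E, (∑ c, (W κ (G c) +
          (∑ p : U × U, |gs s c p.1 p.2 - G c p.1 p.2|) / nU ^ 2) + η * nC) := by
          apply Finset.sum_le_sum
          intro s _
          gcongr with c _
          exact step3 s c
      _ = nE ^ m * ∑ c, W κ (G c) +
          (∑ c, ∑ p : U × U, ∑ s, |gs s c p.1 p.2 - G c p.1 p.2|) / nU ^ 2 +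
          nE ^ m * (η * nC) := by
          simp only [Finset.sum_add_distrib]
          simp only [sum_const, card_univ, Fintype.card_fun, Fintype.card_fin, nsmul_eq_mul]
          have e3 : ∑ s : Fin m → E, ∑ c, (∑ p : U × U, |gs s c p.1 p.2 - G c p.1 p.2|) / nU ^ 2 =
              (∑ c, ∑ p : U × U, ∑ s, |gs s c p.1 p.2 - G c p.1 p.2|) / nU ^ 2 := by
            rw [Finset.sum_comm, Finset.sum_div]
            apply Finset.sum_congr rfl
            intro c _
            rw [← Finset.sum_div, Finset.sum_comm]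
          rw [e3]
          push_cast
          rfl
      _ ≤ nE ^ m * ∑ c, W κ (G c) + (∑ _c : C, ∑ _p : U × U, nE ^ m * η) / nU ^ 2 +
          nE ^ m * (η * nC) := by
          gcongr with c _ p _
          exact step4 c p
      _ = (∑ c, W κ (G c) + 2 * η * nC) * nE ^ m := by
          simp only [sum_const, card_univ, Fintype.card_prod, nsmul_eq_mul]
          push_cast
          rw [← hnC, ← hnU]
          field_simp
          ring
  -- conclusion
  have e4 : (∑ c, ∑ e, ∑ b ∈ S c, F e (i e) c (gr (ρ c) b) b) / (nC * nE * nU) =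
      (∑ c, (∑ b ∈ S c, G c (gr (ρ c) b) b) / nU) / nC := by
    simp only [hG]
    rw [← Finset.sum_div, div_div]
    have : ∀ c, ∑ b ∈ S c, (∑ e, F e (i e) c (gr (ρ c) b) b) / nE =
        (∑ e, ∑ b ∈ S c, F e (i e) c (gr (ρ c) b) b) / nE := by
      intro c
      rw [← Finset.sum_div, Finset.sum_comm]
    simp only [this]
    rw [← Finset.sum_div, div_div]
    congr 1
    ring
  have e5 : (∑ c, ∑ e, ∑ p ∈ A c, F e (i e) c p.1 p.2) / (nC * nE * nU ^ 2) =
      (∑ c, (∑ p ∈ A c, G c p.1 p.2) / nU ^ 2) / nC := by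
    simp only [hG]
    rw [← Finset.sum_div, div_div]
    have : ∀ c, ∑ p ∈ A c, (∑ e, F e (i e) c p.1 p.2) / nE =
        (∑ e, ∑ p ∈ A c, F e (i e) c p.1 p.2) / nE := by
      intro c
      rw [← Finset.sum_div, Finset.sum_comm]
    simp only [this]
    rw [← Finset.sum_div, div_div]
    congr 1
    ring
  rw [e4, e5]
  have h8 : ∑ c, (∑ b ∈ S c, G c (gr (ρ c) b) b) / nU ≤ ∑ c, V gr Ind (ρ c) (G c) :=
    Finset.sum_le_sum (fun c _ => le_V (G c) (hS c))
  have h9 : ∑ c, (∑ p ∈ A c, G c p.1 p.2) / nU ^ 2 = ∑ c, W κ (G c) :=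
    Finset.sum_congr rfl (fun c _ => (hA2 c).symm)
  rw [h9]
  rw [div_add' _ _ _ hC0.ne']
  gcongr
  exact h8.trans step5

end Pool.Agent.Helper55.RD
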