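import Pool.Agent.Helper55.RD.All

/-!
The permutation defined by the shifts, and the visible pairs.
-/

namespace Pool.Agent.Helper55.RD

open Finset Function

set_option linter.unusedSectionVars false

/-- `v`, `w` is an increasing pair of points whose rectangle contains no other point -/
def Vis {V α β : Type*} [LinearOrder α] [LinearOrder β] (X : V → α) (Y : V → β) (v w : V) : Prop :=
  Y v < Y w ∧ X v < X w ∧
    ∀ c, Y v ≤ Y c → Y c ≤ Y w → X v ≤ X c → X c ≤ X w → c = v ∨ c = w

/-- sandwiched vectors in the lexicographic order -/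
theorem lex_sandwich {J : ℕ} {α : Type*} [LinearOrder α] {A B C : Fin J → α} {k : Fin J}
    (h1 : toLex A ≤ toLex C) (h2 : toLex C ≤ toLex B) (h : ∀ i < k, A i = B i) :
    (∀ i < k, C i = A i) ∧ A k ≤ C k ∧ C k ≤ B k := by
  have key : ∀ i < k, C i = A i := by
    by_contra hcon
    push Not at hcon
    obtain ⟨i0, hi0, hne0⟩ := hcon
    obtain ⟨i, ⟨hik, hne⟩, hmin⟩ := WellFounded.has_min (wellFounded_lt (α := Fin J))
      {i | i < k ∧ C i ≠ A i} ⟨i0, hi0, hne0⟩
    have hlt : ∀ j < i, C j = A j := by
      intro j hj
      by_contra hc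
      exact hmin j ⟨hj.trans hik, hc⟩ hj
    have h3 : A i < C i := by
      rcases lt_trichotomy (A i) (C i) with h4 | h4 | h4
      · exact h4
      · exact absurd h4.symm hne
      · exfalso
        exact absurd (show toLex C < toLex A from ⟨i, hlt, h4⟩) (not_lt.mpr h1)
    have h4 : C i < B i := by
      rcases lt_trichotomy (C i) (B i) with h4 | h4 | h4
      · exact h4
      · exfalso
        exact hne (h4.trans (h i hik).symm)
      · exfalso
        exact absurd (show toLex B < toLex C from
          ⟨i, fun j hj => ((h j (hj.trans hik)).symm.trans (hlt j hj).symm), h4⟩) (not_lt.mpr h2)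
    exact absurd (h3.trans h4) (by rw [h i hik]; exact lt_irrefl _)
  refine ⟨key, ?_, ?_⟩
  · by_contra hc
    rw [not_le] at hc
    exact absurd (show toLex C < toLex A from ⟨k, key, hc⟩) (not_lt.mpr h1)
  · by_contra hc
    rw [not_le] at hc
    exact absurd (show toLex B < toLex C from
      ⟨k, fun j hj => (h j hj).symm.trans (key j hj).symm, hc⟩) (not_lt.mpr h2)

section Perm

variable {J u n : ℕ} 

/-- replacement of the letter of the digit `k` by its image -/
def stp (gr : Fin u → Fin u → Fin u) (d : Fin u × Fin n)
    (r : Fin J → (Fin J → Fin u × Fin n) → Fin u) (k : Fin J) (z : Fin J → Fin u × Fin n) :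
    Fin J → Fin u × Fin n := rep z k (gr (r k (update z k d)) (z k).1)

/-- the mixed vectors -/
def zs (gr : Fin u → Fin u → Fin u) (d : Fin u × Fin n)
    (r : Fin J → (Fin J → Fin u × Fin n) → Fin u) (y : Fin J → Fin u × Fin n) :
    ℕ → Fin J → Fin u × Fin n
  | 0 => y
  | t + 1 => if h : t < J then stp gr d r ⟨t, h⟩ (zs gr d r y t) else zs gr d r y t

variable {gr : Fin u → Fin u → Fin u} {d : Fin u × Fin n}
  {r : Fin J → (Fin J → Fin u × Fin n) → Fin u}

theorem zs_succ (y : Fin J → Fin u × Fin n) (k : Fin J) :
    zs gr d r y (k + 1) = stp gr d r k (zs gr d r y k) := by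
  rw [zs, dif_pos k.isLt]

/-- digits not yet treated -/
theorem zs_ge (y : Fin J → Fin u × Fin n) (t : ℕ) (i : Fin J) (hi : t ≤ i) :
    zs gr d r y t i = y i := by
  induction t with
  | zero => rfl
  | succ t ih =>
    have ht : t < J := by have := i.isLt; omega
    have h1 : zs gr d r y (t + 1) = stp gr d r ⟨t, ht⟩ (zs gr d r y t) := zs_succ y ⟨t, ht⟩
    rw [h1]
    unfold stp
    rw [rep_other]
    · exact ih (by omega)
    · intro h
      rw [h] at hi
      simp only at hi
      omega

/-- digits already treated -/
theorem zs_lt (y : Fin J → Fin u × Fin n) (t s : ℕ) (i : Fin J) (hi : (i : ℕ) < t) :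
    zs gr d r y (t + s) i = zs gr d r y t i := by
  induction s with
  | zero => rfl
  | succ s ih =>
    rw [← ih]
    rcases lt_or_ge (t + s) J with h | h
    · have h1 : zs gr d r y (t + s + 1) = stp gr d r ⟨t + s, h⟩ (zs gr d r y (t + s)) :=
        zs_succ y ⟨t + s, h⟩
      rw [← add_assoc, h1]
      unfold stp
      rw [rep_other]
      intro h2
      rw [h2] at hi
      simp only at hi
      omega
    · rw [← add_assoc, zs, dif_neg (by omega)]

theorem stp_inj (hgr2 : ∀ r, Injective (gr r)) (k : Fin J) : Injective (stp gr d r k) := by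
  intro z z' h
  unfold stp at h
  have h1 : update z k d = update z' k d := by
    have := congrArg (fun v => update v k d) h
    simpa only [update_rep] using this
  have h2 := congrFun h k
  rw [rep_same, rep_same, h1] at h2
  simp only [Prod.mk.injEq] at h2
  have h3 : z k = z' k := Prod.ext (hgr2 _ h2.1) h2.2
  funext i
  by_cases hi : i = k
  · rw [hi, h3]
  · have := congrFun h1 i
    rwa [update_of_ne hi, update_of_ne hi] at this

theorem zs_inj (hgr2 : ∀ r, Injective (gr r)) (t : ℕ) :
    Injective (fun y => zs gr d r y t) := by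
  induction t with
  | zero => exact fun y y' h => h
  | succ t ih =>
    intro y y' h
    simp only at h
    rcases lt_or_ge t J with ht | ht
    · have h1 := zs_succ (gr := gr) (d := d) (r := r) y ⟨t, ht⟩
      have h2 := zs_succ (gr := gr) (d := d) (r := r) y' ⟨t, ht⟩
      simp only at h1 h2
      rw [h1, h2] at h
      exact ih (stp_inj hgr2 _ h)
    · rw [zs, zs, dif_neg (by omega), dif_neg (by omega)] at h
      exact ih h

/-- the horizontal coordinate -/
def XX (gr : Fin u → Fin u → Fin u) (d : Fin u × Fin n)
    (r : Fin J → (Fin J → Fin u × Fin n) → Fin u) (y : Fin J → Fin u × Fin n) :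
    Lex (Fin J → (Fin u ×ₗ (Fin n)ᵒᵈ)) :=
  toLex (fun i => toLex ((zs gr d r y J i).1, OrderDual.toDual (zs gr d r y J i).2))

/-- the vertical coordinate -/
def YY (y : Fin J → Fin u × Fin n) : Lex (Fin J → (Fin u ×ₗ Fin n)) :=
  toLex (fun i => toLex (y i.rev))

theorem XX_inj (hgr2 : ∀ r, Injective (gr r)) : Injective (XX gr d r) := by
  intro y y' h
  apply zs_inj (d := d) (r := r) hgr2 J
  simp only
  funext i
  have h1 := congrFun (toLex.injective h) i
  have h2 := toLex.injective h1
  simp only [Prod.mk.injEq] at h2
  exact Prod.ext h2.1 (OrderDual.toDual.injective h2.2)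

theorem YY_inj : Injective (YY (J := J) (u := u) (n := n)) := by
  intro y y' h
  funext i
  have h1 := congrFun (toLex.injective h) i.rev
  have h2 := toLex.injective h1
  rwa [Fin.rev_rev] at h2

/-- visible pairs of letters give visible pairs of points -/
theorem vis_of_letter (hgr2 : ∀ r, Injective (gr r)) (k : Fin J) (y y' : Fin J → Fin u × Fin n)
    (hctx : update (zs gr d r y k) k d = update (zs gr d r y' k) k d)
    (hvis : Vis (gr (r k (update (zs gr d r y k) k d))) id (y k).1 (y' k).1) :
    Vis (XX gr d r) YY y y' := by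
  have hagree : ∀ i, i ≠ k → zs gr d r y k i = zs gr d r y' k i := by
    intro i hi
    have := congrFun hctx i
    rwa [update_of_ne hi, update_of_ne hi] at this
  have hgt : ∀ i, k < i → y i = y' i := by
    intro i hi
    have := hagree i (ne_of_gt hi)
    rwa [zs_ge y k i hi.le, zs_ge y' k i hi.le] at this
  have hJk : J = k + (J - k) := by have := k.isLt; omega
  have hfin : ∀ (v : Fin J → Fin u × Fin n) (i : Fin J), i < k → zs gr d r v J i = zs gr d r v k i := by
    intro v i hi
    have := zs_lt (gr := gr) (d := d) (r := r) v k (J - k) i hi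
    rwa [← hJk] at this
  have hfink : ∀ (v : Fin J → Fin u × Fin n), zs gr d r v J k =
      (gr (r k (update (zs gr d r v k) k d)) (v k).1, (v k).2) := by
    intro v
    have h1 := zs_lt (gr := gr) (d := d) (r := r) v (k + 1) (J - (k + 1)) k (Nat.lt_succ_self _)
    have h2 : J = k + 1 + (J - (k + 1)) := by have := k.isLt; omega
    rw [← h2] at h1
    rw [h1, zs_succ]
    unfold stp
    rw [rep_same, zs_ge v k k le_rfl]
  obtain ⟨hv1, hv2, hv3⟩ := hvis
  simp only [id] at hv1 hv3
  have hrev : ∀ i : Fin J, i < k.rev → k < i.rev := by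
    intro i hi
    rw [Fin.lt_def] at hi ⊢
    rw [Fin.val_rev] at hi ⊢
    omega
  refine ⟨?_, ?_, ?_⟩
  · refine ⟨k.rev, ?_, ?_⟩
    · intro i hi
      simp only [YY]
      change toLex (y i.rev) = toLex (y' i.rev)
      rw [hgt _ (hrev i hi)]
    · change toLex (y k.rev.rev) < toLex (y' k.rev.rev)
      rw [Fin.rev_rev, Prod.Lex.lt_iff]
      left
      exact hv1
  · refine ⟨k, ?_, ?_⟩
    · intro i hi
      change toLex ((zs gr d r y J i).1, OrderDual.toDual (zs gr d r y J i).2) =
        toLex ((zs gr d r y' J i).1, OrderDual.toDual (zs gr d r y' J i).2)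
      rw [hfin y i hi, hfin y' i hi, hagree i (ne_of_lt hi)]
    · change toLex ((zs gr d r y J k).1, OrderDual.toDual (zs gr d r y J k).2) <
        toLex ((zs gr d r y' J k).1, OrderDual.toDual (zs gr d r y' J k).2)
      rw [Prod.Lex.lt_iff]
      left
      rw [hfink, hfink, ← hctx]
      exact hv2
  · intro c hY1 hY2 hX1 hX2
    have hYs := lex_sandwich (k := k.rev) hY1 hY2 (by
      intro i hi
      rw [hgt _ (hrev i hi)])
    have hXs := lex_sandwich (k := k) hX1 hX2 (by
      intro i hi
      rw [hfin y i hi, hfin y' i hi, hagree i (ne_of_lt hi)])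
    obtain ⟨hYa, hYb, hYc⟩ := hYs
    obtain ⟨hXa, hXb, hXc⟩ := hXs
    have hcgt : ∀ i, k < i → c i = y i := by
      intro i hi
      have h1 := hYa i.rev (by rw [Fin.lt_def, Fin.val_rev, Fin.val_rev]; rw [Fin.lt_def] at hi
                               have := i.isLt; omega)
      have h2 := toLex.injective h1
      rwa [Fin.rev_rev] at h2
    have hclt : ∀ i, i < k → zs gr d r c k i = zs gr d r y k i := by
      intro i hi
      have h1 := toLex.injective (hXa i hi)
      simp only [Prod.mk.injEq] at h1
      rw [← hfin c i hi, ← hfin y i hi]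
      exact Prod.ext h1.1 (OrderDual.toDual.injective h1.2)
    have hcne : ∀ i, i ≠ k → zs gr d r c k i = zs gr d r y k i := by
      intro i hi
      rcases lt_or_gt_of_ne hi with h | h
      · exact hclt i h
      · rw [zs_ge c k i h.le, zs_ge y k i h.le]
        exact hcgt i h
    have hcctx : update (zs gr d r c k) k d = update (zs gr d r y k) k d := by
      funext i
      by_cases hi : i = k
      · subst hi; simp
      · rw [update_of_ne hi, update_of_ne hi]
        exact hcne i hi
    rw [Fin.rev_rev] at hYb hYc
    rw [hfink y, hfink c] at hXb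
    rw [hfink c, hfink y'] at hXc
    rw [hcctx] at hXb hXc
    rw [← hctx] at hXc
    rw [Prod.Lex.le_iff] at hYb hYc hXb hXc
    simp only [ofLex_toLex] at hYb hYc hXb hXc
    set g := gr (r k (update (zs gr d r y k) k d)) with hg
    have a1 : (y k).1 ≤ (c k).1 := by
      rcases hYb with h | h
      · exact h.le
      · exact h.1.le
    have a2 : (c k).1 ≤ (y' k).1 := by
      rcases hYc with h | h
      · exact h.le
      · exact h.1.le
    have a3 : g (y k).1 ≤ g (c k).1 := by
      rcases hXb with h | h
      · exact h.le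
      · exact h.1.le
    have a4 : g (c k).1 ≤ g (y' k).1 := by
      rcases hXc with h | h
      · exact h.le
      · exact h.1.le
    rcases hv3 (c k).1 a1 a2 a3 a4 with h | h
    · left
      have b1 : (y k).2 ≤ (c k).2 := by
        rcases hYb with h' | h'
        · rw [h] at h'; exact absurd h' (lt_irrefl _)
        · exact h'.2
      have b2 : (c k).2 ≤ (y k).2 := by
        rcases hXb with h' | h'
        · rw [h] at h'; exact absurd h' (lt_irrefl _)
        · exact h'.2
      have b3 : c k = y k := Prod.ext h (le_antisymm b2 b1)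
      apply zs_inj (d := d) (r := r) hgr2 k
      simp only
      funext i
      by_cases hi : i = k
      · rw [hi, zs_ge c k k le_rfl, zs_ge y k k le_rfl, b3]
      · exact hcne i hi
    · right
      have b1 : (c k).2 ≤ (y' k).2 := by
        rcases hYc with h' | h'
        · rw [h] at h'; exact absurd h' (lt_irrefl _)
        · exact h'.2
      have b2 : (y' k).2 ≤ (c k).2 := by
        rcases hXc with h' | h'
        · rw [h] at h'; exact absurd h' (lt_irrefl _)
        · exact h'.2
      have b3 : c k = y' k := Prod.ext h (le_antisymm b1 b2)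
      apply zs_inj (d := d) (r := r) hgr2 k
      simp only
      funext i
      by_cases hi : i = k
      · rw [hi, zs_ge c k k le_rfl, zs_ge y' k k le_rfl, b3]
      · exact (hcne i hi).trans (hagree i hi)

end Perm

end Pool.Agent.Helper55.RD
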